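import Pool.Agent.FOX.Stmts
import Pool.Agent.FOI.Poset

/-!
# A5: the conditions `Adm`
-/

namespace FOX

open Lib_helper64.FO FO2 FOK FOI
open FOL (bd)

noncomputable section

namespace ADM

/-! ### words in involutions -/

theorem rev_prod {ι Γ : Type} [Group Γ] (s : ι → Γ) (hs : ∀ i, s i * s i = 1) (w : List ι) :
    (w.reverse.map s).prod = (w.map s).prod⁻¹ := by
  induction w with
  | nil => simp
  | cons a w ih =>
    rw [List.reverse_cons, List.map_append, List.prod_append, ih, List.map_cons (a := a) (l := w),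
      List.prod_cons, mul_inv_rev, List.map_singleton, List.prod_singleton,
      inv_eq_of_mul_eq_one_left (hs a)]

theorem mem_words {ι Γ : Type} [Group Γ] (s : ι → Γ) (hs : ∀ i, s i * s i = 1) (I : Set ι)
    {γ : Γ} (h : γ ∈ Subgroup.closure (s '' I)) :
    ∃ w : List ι, (∀ j ∈ w, j ∈ I) ∧ (w.map s).prod = γ := by
  induction h using Subgroup.closure_induction with
  | mem x hx =>
    obtain ⟨j, hj, rfl⟩ := hx
    exact ⟨[j], by simpa using hj, by simp⟩
  | one => exact ⟨[], by simp, by simp⟩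
  | mul x y _ _ ihx ihy =>
    obtain ⟨w, hw, rfl⟩ := ihx
    obtain ⟨v, hv, rfl⟩ := ihy
    refine ⟨w ++ v, ?_, by rw [List.map_append, List.prod_append]⟩
    intro j hj
    rcases List.mem_append.1 hj with h1 | h1
    · exact hw j h1
    · exact hv j h1
  | inv x _ ih =>
    obtain ⟨w, hw, rfl⟩ := ih
    exact ⟨w.reverse, fun j hj => hw j (List.mem_reverse.1 hj), rev_prod s hs w⟩

theorem words_mem {ι Γ : Type} [Group Γ] (s : ι → Γ) (I : Set ι) (w : List ι)
    (hw : ∀ j ∈ w, j ∈ I) : (w.map s).prod ∈ Subgroup.closure (s '' I) := by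
  apply Subgroup.list_prod_mem
  intro x hx
  obtain ⟨j, hj, rfl⟩ := List.mem_map.1 hx
  exact Subgroup.subset_closure ⟨j, hw j hj, rfl⟩

/-- the subgroups of the extended generators -/
theorem gpar_ex {d : ℕ} {Γ : Type} [Group Γ] (ρ : Fin d → Γ) (K : Set ℕ) :
    gpar (exG ρ) K = Subgroup.closure (ρ '' {j : Fin d | j.val ∈ K}) := by
  apply le_antisymm
  · rw [gpar, Subgroup.closure_le]
    rintro _ ⟨j, hj, rfl⟩
    by_cases h : j < d
    · have e : exG ρ j = ρ ⟨j, h⟩ := by rw [exG, dif_pos h]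
      rw [e]
      exact Subgroup.subset_closure ⟨⟨j, h⟩, hj, rfl⟩
    · have e : exG ρ j = 1 := by rw [exG, dif_neg h]
      rw [e]
      exact one_mem _
  · rw [gpar, Subgroup.closure_le]
    rintro _ ⟨j, hj, rfl⟩
    refine Subgroup.subset_closure ⟨j.val, hj, ?_⟩
    rw [exG, dif_pos j.isLt]

section Poset

variable {P : Type} [PartialOrder P] {d : ℕ} {rk : P → ℤ}

/-- an automorphism which fixes the vertices of the base `m`-face -/
theorem hfix (hP : IsRegularPolytope d rk) {C : Flag P} {ρ : ℕ → (P ≃o P)}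
    (hρ : PolyGroup d rk C ρ) {f : P → E d} (hf : Faithful rk f) {F0 : P} (h0 : F0 ∈ C)
    (hr0 : rk F0 = 0) (m : ℕ) (γ : P ≃o P)
    (hγ : ∀ g ∈ gpar ρ {j | j < m}, γ (g F0) = g F0) : γ ∈ gpar ρ {j | m < j} := by
  apply hρ.stab
  intro x hx i hi him
  have him' : i ≤ m := by
    by_contra hcon
    exact him (by simpa using hcon)
  refine GE1.fix_below hρ hf γ x (fun v hv hvx => ?_) i x hi le_rfl
  obtain ⟨g, hg, rfl⟩ := GE1.vertex_trans hP hρ h0 hr0 hx hi hv hvx
  have hg' : g ∈ gpar ρ {j | j < m} :=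
    Subgroup.closure_mono (Set.image_mono fun j (hj : j < i) => lt_of_lt_of_le hj him') hg
  exact hγ g hg'

theorem comm_up {C : Flag P} {ρ : ℕ → (P ≃o P)} (hρ : PolyGroup d rk C ρ) {i j : ℕ}
    (h : i + 2 ≤ j) {g : P ≃o P} (hg : g ∈ gpar ρ {k | j ≤ k}) : ρ i * g = g * ρ i := by
  have h1 : gpar ρ {k | j ≤ k} ≤ Subgroup.centralizer ({ρ i} : Set (P ≃o P)) := by
    rw [gpar, Subgroup.closure_le]
    rintro _ ⟨k, hk, rfl⟩
    rw [SetLike.mem_coe, Subgroup.mem_centralizer_iff]
    intro h' hh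
    rw [Set.mem_singleton_iff] at hh
    subst hh
    exact hρ.comm i k (h.trans hk)
  exact Subgroup.mem_centralizer_iff.1 (h1 hg) (ρ i) rfl

theorem fix_base {C : Flag P} {ρ : ℕ → (P ≃o P)} (hρ : PolyGroup d rk C ρ) {F0 : P}
    (h0 : F0 ∈ C) (hr0 : rk F0 = 0) {i : ℕ} {g : P ≃o P} (hg : g ∈ gpar ρ {k | i + 1 ≤ k}) :
    g F0 = F0 := by
  rw [gpar] at hg
  induction hg using Subgroup.closure_induction with
  | mem x hx =>
    obtain ⟨j, hj, rfl⟩ := hx
    have hj' : i + 1 ≤ j := hj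
    exact hρ.moves j F0 h0 (by rw [hr0]; omega)
  | one => rfl
  | mul x y _ _ ihx ihy =>
    change x (y F0) = F0
    rw [ihy, ihx]
  | inv x _ ih =>
    change x.symm F0 = F0
    rw [OrderIso.symm_apply_eq]
    exact ih.symm

/-- `L2` of `FOI/AGeo.lean` -/
theorem L2 (hP : IsRegularPolytope d rk) {C : Flag P} {ρ : ℕ → (P ≃o P)}
    (hρ : PolyGroup d rk C ρ) {f : P → E d} (hf : Faithful rk f) {F0 : P} (h0 : F0 ∈ C)
    (hr0 : rk F0 = 0) {i : ℕ} {γ : P ≃o P} (h1 : γ ∈ gpar ρ {k | i + 1 ≤ k})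
    (h2 : ρ i * γ * ρ i ∈ gpar ρ {k | i + 1 ≤ k}) : γ ∈ gpar ρ {k | i + 1 < k} := by
  apply hfix hP hρ hf h0 hr0
  have key : ∀ w : List ℕ, (∀ j ∈ w, j < i + 1) → ∀ δ : P ≃o P, (δ = γ ∨ δ = ρ i * γ * ρ i) →
      ∃ δ' : P ≃o P, (δ' = γ ∨ δ' = ρ i * γ * ρ i) ∧
        δ * (w.map ρ).prod = (w.map ρ).prod * δ' := by
    intro w
    induction w with
    | nil =>
      intro _ δ hδ
      exact ⟨δ, hδ, by simp⟩
    | cons j w ih =>
      intro hw δ hδ
      have hj : j < i + 1 := hw j List.mem_cons_self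
      have step : ∃ δ' : P ≃o P, (δ' = γ ∨ δ' = ρ i * γ * ρ i) ∧ δ * ρ j = ρ j * δ' := by
        rcases Nat.lt_succ_iff_lt_or_eq.1 hj with hlt | rfl
        · refine ⟨δ, hδ, ?_⟩
          have hδ' : δ ∈ gpar ρ {k | i + 1 ≤ k} := by
            rcases hδ with rfl | rfl
            · exact h1
            · exact h2
          exact (comm_up hρ (by omega) hδ').symm
        · rcases hδ with rfl | rfl
          · refine ⟨ρ j * δ * ρ j, Or.inr rfl, ?_⟩
            rw [← mul_assoc, ← mul_assoc, hρ.sq, one_mul]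
          · refine ⟨γ, Or.inl rfl, ?_⟩
            rw [mul_assoc, mul_assoc, hρ.sq, mul_one]
      obtain ⟨δ1, h3, h4⟩ := step
      obtain ⟨δ2, h5, h6⟩ := ih (fun k hk => hw k (List.mem_cons_of_mem _ hk)) δ1 h3
      refine ⟨δ2, h5, ?_⟩
      rw [List.map_cons, List.prod_cons, ← mul_assoc, h4, mul_assoc, h6, mul_assoc]
  intro g hg
  obtain ⟨w, hw, rfl⟩ := mem_words ρ hρ.sq _ hg
  obtain ⟨δ, h3, h4⟩ := key w hw γ (Or.inl rfl)
  have h5 : δ F0 = F0 := by
    rcases h3 with rfl | rfl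
    · exact fix_base hρ h0 hr0 h1
    · exact fix_base hρ h0 hr0 h2
  have h6 := congrArg (fun e : P ≃o P => e F0) h4
  change γ ((w.map ρ).prod F0) = (w.map ρ).prod (δ F0) at h6
  rw [h6, h5]

end Poset

end ADM

theorem t_ADM : S_ADM := by
  intro d P _ rk hd hP f C ρ hρ hf F0 h0 hr0 c p hp S hact hout heq
  have G : PolyGroup d rk C (exG ρ) := FOI.gens d P rk hP C ρ hρ
  have hsq : ∀ j, ρ j * ρ j = 1 := by
    intro j
    have := G.sq j.val
    rwa [exG, dif_pos j.isLt] at this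
  -- transfer of the subgroups
  have toρ : ∀ (I : Set (Fin d)) (w : List (Fin d)), (w.map S.σ).prod ∈ S.par I →
      (w.map ρ).prod ∈ Subgroup.closure (ρ '' I) := by
    intro I w hw
    obtain ⟨v, hv, e⟩ := ADM.mem_words S.σ S.sq I hw
    rw [← (heq v w).1 e]
    exact ADM.words_mem ρ I v hv
  have toσ : ∀ (I : Set (Fin d)) (w : List (Fin d)),
      (w.map ρ).prod ∈ Subgroup.closure (ρ '' I) → (w.map S.σ).prod ∈ S.par I := by
    intro I w hw
    obtain ⟨v, hv, e⟩ := ADM.mem_words ρ hsq I hw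
    rw [← (heq v w).2 e]
    exact ADM.words_mem S.σ I v hv
  have hrng : ∀ I : Set (Fin d), {j : Fin d | j.val ∈ Fin.val '' I} = I := by
    intro I
    ext j
    constructor
    · rintro ⟨k, hk, e⟩
      rwa [← Fin.ext e]
    · intro hj
      exact ⟨j, hj, rfl⟩
  have hword : ∀ w v : List (Fin d), (w.map S.σ).prod (p v) = p (w ++ v) := by
    intro w
    induction w with
    | nil => intro v; rfl
    | cons j w ih =>
      intro v
      rw [List.map_cons, List.prod_cons, Equiv.Perm.mul_apply, ih, hact]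
      rfl
  refine ⟨hact, hout, ?_, ?_, ?_, ?_⟩
  · intro j hj
    have h1 : ([j].map S.σ).prod = (([] : List (Fin d)).map S.σ).prod := by simpa using hj
    have h2 := (heq [j] []).1 h1
    have h3 : ρ j = 1 := by simpa using h2
    apply G.ne_one j.val j.isLt
    rw [exG, dif_pos j.isLt]
    exact h3
  · intro I J
    apply le_antisymm
    · rintro γ ⟨hI, hJ⟩
      obtain ⟨w, -, rfl⟩ := ADM.mem_words S.σ S.sq I hI
      apply toσ
      have h1 := toρ I w hI
      have h2 := toρ J w hJ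
      have h3 := G.inter (Fin.val '' I) (Fin.val '' J)
      rw [ADM.gpar_ex, ADM.gpar_ex, ADM.gpar_ex, hrng, hrng] at h3
      have h4 : {j : Fin d | j.val ∈ Fin.val '' I ∩ Fin.val '' J} = I ∩ J := by
        ext j
        constructor
        · rintro ⟨⟨k, hk, e⟩, ⟨l, hl, e'⟩⟩
          exact ⟨by rwa [← Fin.ext e], by rwa [← Fin.ext e']⟩
        · rintro ⟨h5, h6⟩
          exact ⟨⟨j, h5, rfl⟩, ⟨j, h6, rfl⟩⟩
      rw [h4] at h3
      rw [← h3]
      exact ⟨h1, h2⟩
    · exact le_inf (Subgroup.closure_mono (Set.image_mono Set.inter_subset_left))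
        (Subgroup.closure_mono (Set.image_mono Set.inter_subset_right))
  · intro γ hγ hγp
    obtain ⟨w, -, rfl⟩ := ADM.mem_words S.σ S.sq _ hγ
    apply toσ
    rw [hword, List.append_nil] at hγp
    have h1 : f ((w.map ρ).prod F0) = f F0 := by
      have h2 := hp []
      rw [List.map_nil, List.prod_nil] at h2
      have h3 : f F0 = c + p [] := h2
      rw [hp, hγp, h3]
    have h2 : (w.map ρ).prod F0 = F0 :=
      hf 0 _ _ (by rw [G.rank, hr0]; simp) (by simpa using hr0) h1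
    have h3 : (w.map ρ).prod ∈ gpar (exG ρ) {j | 0 < j} := by
      apply ADM.hfix hP G hf h0 hr0
      intro g hg
      have h4 : ({j : ℕ | j < 0}) = ∅ := by
        ext j
        simp
      rw [h4, gpar, Set.image_empty, Subgroup.closure_empty, Subgroup.mem_bot] at hg
      subst hg
      exact h2
    rw [ADM.gpar_ex] at h3
    have h5 : {j : Fin d | j.val ∈ {j : ℕ | 0 < j}} = {j : Fin d | j.val ≠ 0} := by
      ext j
      exact Nat.pos_iff_ne_zero
    rwa [h5] at h3
  · intro m hm γ hγ hγ'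
    obtain ⟨w, -, rfl⟩ := ADM.mem_words S.σ S.sq _ hγ
    apply toσ
    have h1 := toρ _ w hγ
    have e1 : ((prd m :: (w ++ [prd m])).map S.σ).prod =
        S.σ (prd m) * (w.map S.σ).prod * S.σ (prd m) := by
      rw [List.map_cons, List.prod_cons, List.map_append, List.prod_append, List.map_singleton,
        List.prod_singleton, mul_assoc]
    have e2 : ((prd m :: (w ++ [prd m])).map ρ).prod =
        ρ (prd m) * (w.map ρ).prod * ρ (prd m) := by
      rw [List.map_cons, List.prod_cons, List.map_append, List.prod_append, List.map_singleton,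
        List.prod_singleton, mul_assoc]
    rw [← e1] at hγ'
    have h2 := toρ _ _ hγ'
    rw [e2] at h2
    have e3 : exG ρ (m.val - 1) = ρ (prd m) := by
      rw [exG, dif_pos (by omega : m.val - 1 < d)]
      rfl
    have e4 : {j : Fin d | j.val ∈ {k : ℕ | m.val - 1 + 1 ≤ k}} = {j : Fin d | m ≤ j} := by
      ext j
      change m.val - 1 + 1 ≤ j.val ↔ m.val ≤ j.val
      omega
    have e5 : {j : Fin d | j.val ∈ {k : ℕ | m.val - 1 + 1 < k}} = {j : Fin d | m < j} := by
      ext j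
      change m.val - 1 + 1 < j.val ↔ m.val < j.val
      omega
    have h3 := ADM.L2 hP G hf h0 hr0 (i := m.val - 1) (γ := (w.map ρ).prod)
      (by rw [ADM.gpar_ex, e4]; exact h1) (by rw [ADM.gpar_ex, e3, e4]; exact h2)
    rwa [ADM.gpar_ex, e5] at h3

end

end FOX
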