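import Pool.Agent.FOX.Stmts
import Pool.Agent.FO2.RLF
import Pool.Agent.FO2.COA
import Pool.Agent.FO2.FLG

/-!
# FOX, module BCK: from a match with the coset poset to the word formula
-/

namespace FOX

open Lib_helper64.FO FO2 FOK FOI
open scoped RealInnerProductSpace

noncomputable section

namespace BCK

variable {d : ℕ} {S : SGen d (E d)} {p : List (Fin d) → E d}

theorem word_act (hA : Adm S p) (w : List (Fin d)) : (w.map S.σ).prod (p []) = p w := by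
  induction w with
  | nil => rfl
  | cons j w ih =>
    rw [List.map_cons, List.prod_cons, Equiv.Perm.mul_apply, ih, hA.act]

theorem orbit (hA : Adm S p) {g : Equiv.Perm (E d)} (hg : g ∈ S.par Set.univ) :
    ∀ w : List (Fin d), (∃ w', g (p w) = p w') ∧ ∃ w', g⁻¹ (p w) = p w' := by
  refine Subgroup.closure_induction (p := fun g _ => ∀ w : List (Fin d),
    (∃ w', g (p w) = p w') ∧ ∃ w', g⁻¹ (p w) = p w') ?_ ?_ ?_ ?_ hg
  · rintro _ ⟨j, -, rfl⟩ w
    refine ⟨⟨j :: w, hA.act j w⟩, ⟨j :: w, ?_⟩⟩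
    rw [inv_eq_of_mul_eq_one_left (S.sq j)]
    exact hA.act j w
  · intro w
    exact ⟨⟨w, rfl⟩, ⟨w, by rw [inv_one]; rfl⟩⟩
  · intro a b _ _ ha hb w
    constructor
    · obtain ⟨w1, h1⟩ := (hb w).1
      obtain ⟨w2, h2⟩ := (ha w1).1
      exact ⟨w2, by rw [Equiv.Perm.mul_apply, h1, h2]⟩
    · obtain ⟨w1, h1⟩ := (ha w).2
      obtain ⟨w2, h2⟩ := (hb w1).2
      exact ⟨w2, by rw [mul_inv_rev, Equiv.Perm.mul_apply, h1, h2]⟩
  · intro a _ ha w
    exact ⟨(ha w).2, by rw [inv_inv]; exact (ha w).1⟩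

theorem vertex {x : CPos S} (hd : 1 ≤ d) (hx : rkC x = 0) :
    ∃ K : CFace S, x = some (some K) := by
  rcases FO2.COA.cases3 x with rfl | rfl | ⟨K, rfl⟩
  · exact absurd hx (by change ¬ (-1 : ℤ) = 0; omega)
  · exact absurd hx (by change ¬ (d : ℤ) = 0; omega)
  · exact ⟨K, rfl⟩

variable {P Q : Type} [PartialOrder P] [PartialOrder Q]

/-- conjugation of an automorphism by an isomorphism -/
def cj (φ : P ≃o Q) (γ : Q ≃o Q) : P ≃o P := (φ.trans γ).trans φ.symm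

theorem cj_apply (φ : P ≃o Q) (γ : Q ≃o Q) (x : P) : cj φ γ x = φ.symm (γ (φ x)) := rfl

theorem cj_prod (φ : P ≃o Q) (ρ : Fin d → (Q ≃o Q)) (w : List (Fin d)) (x : Q) :
    (w.map fun j => cj φ (ρ j)).prod (φ.symm x) = φ.symm ((w.map ρ).prod x) := by
  induction w with
  | nil => rfl
  | cons j w ih =>
    rw [List.map_cons, List.prod_cons, List.map_cons, List.prod_cons]
    change cj φ (ρ j) ((w.map fun j => cj φ (ρ j)).prod (φ.symm x)) =
      φ.symm (ρ j ((w.map ρ).prod x))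
    rw [ih, cj_apply, φ.apply_symm_apply]

theorem mem_map (φ : P ≃o Q) (C : Flag Q) (x : P) : x ∈ Flag.map φ.symm C ↔ φ x ∈ C := by
  have h : x ∈ Flag.map φ.symm C ↔ x ∈ (φ.symm '' (C : Set Q)) := by
    rw [← Flag.coe_map]; rfl
  rw [h]
  constructor
  · rintro ⟨y, hy, rfl⟩
    rw [φ.apply_symm_apply]
    exact hy
  · intro hx
    exact ⟨φ x, hx, φ.symm_apply_apply x⟩

theorem mem_smul (γ : P ≃o P) (C : Flag P) (x : P) : γ x ∈ (γ • C : Flag P) ↔ x ∈ C := by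
  have h : γ x ∈ (γ • C : Flag P) ↔ γ x ∈ ((γ • C : Flag P) : Set P) := Iff.rfl
  rw [h, Flag.coe_smul]
  constructor
  · rintro ⟨y, hy, e⟩
    have : y = x := γ.injective e
    rwa [this] at hy
  · intro hx
    exact ⟨x, hx, rfl⟩

theorem gens (φ : P ≃o Q) (rk : P → ℤ) (rk' : Q → ℤ) (h : ∀ x, rk' (φ x) = rk x) (C : Flag Q)
    (ρ : Fin d → (Q ≃o Q)) (hg : IsGens rk' C ρ) :
    IsGens rk (Flag.map φ.symm C) (fun j => cj φ (ρ j)) := by
  intro j
  obtain ⟨h1, h2⟩ := hg j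
  constructor
  · intro e
    apply h1
    apply SetLike.ext
    intro y
    obtain ⟨x, rfl⟩ := φ.surjective y
    have e1 : φ.symm (ρ j (φ x)) ∈ (cj φ (ρ j) • Flag.map φ.symm C : Flag P) ↔
        x ∈ Flag.map φ.symm C := mem_smul (cj φ (ρ j)) _ x
    rw [e, mem_map, mem_map, φ.apply_symm_apply] at e1
    -- `ρ j (φ x) ∈ C ↔ φ x ∈ C`
    obtain ⟨z, hz⟩ := (ρ j).surjective (φ x)
    obtain ⟨u, hu⟩ := φ.surjective z
    have e2 : φ.symm (ρ j (φ u)) ∈ (cj φ (ρ j) • Flag.map φ.symm C : Flag P) ↔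
        u ∈ Flag.map φ.symm C := mem_smul (cj φ (ρ j)) _ u
    rw [e, mem_map, mem_map, φ.apply_symm_apply, hu, hz] at e2
    rw [e2, ← hz]
    exact mem_smul (ρ j) C z
  · intro x hx hr
    rw [mem_map] at hx
    rw [cj_apply, h2 (φ x) hx (by rw [h]; exact hr), φ.symm_apply_apply]

end BCK

open BCK in
theorem t_BCK : M_BCK := by
  intro hCOB hXF hREG hCPG d S p hd hA hp P _ rk f hM
  have hS : StrC S := ⟨hA.ne_one, hA.inter⟩
  have hF : FaiI S (p []) (fun x : E d => x) := by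
    refine ⟨hA.stab, ?_, ?_, hA.edge⟩
    · intro j hj
      rw [hA.act, hp j hj]
    · intro g _ h _ e
      exact e
  obtain ⟨c, φ, hrk, hval⟩ := hM
  have hReg : IsRegularPolytope d rk :=
    hREG d P (CPos S) rk rkC φ hrk (hCOB d (E d) S hd hS)
  refine ⟨hReg, hXF d (E d) S (p []) (fun x => x) hd hS hF P rk hReg f ⟨c, φ, hrk, hval⟩, ?_⟩
  obtain ⟨C, ρ, F0, hg, hF0, hF0r, hw⟩ := hCPG d (E d) S hd hS
  refine ⟨Flag.map φ.symm C, fun j => cj φ (ρ j), φ.symm F0, c, gens φ rk rkC hrk C ρ hg, ?_, ?_,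
    ?_, ?_⟩
  · rw [mem_map, φ.apply_symm_apply]
    exact hF0
  · rw [← hrk, φ.apply_symm_apply]
    exact hF0r
  · intro w
    rw [cj_prod]
    obtain ⟨K, hK, hKw⟩ := hw w
    have hr : rk (φ.symm ((w.map ρ).prod F0)) = 0 := by
      rw [← hrk, φ.apply_symm_apply, FO2.FLG.rk_map (hCOB d (E d) S hd hS)]
      exact hF0r
    rw [hval _ K hr (by rw [φ.apply_symm_apply]; exact hK) _ hKw, word_act hA w]
  · intro v hv
    have h1 : rkC (φ v) = 0 := by rw [hrk]; exact hv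
    obtain ⟨K, hK⟩ := vertex hd h1
    obtain ⟨g, hg⟩ := FO2.COA.coset_nonempty K
    obtain ⟨w, hw⟩ := (orbit hA (FO2.COA.coset_sub K hg) []).1
    exact ⟨w, by rw [hval v K hv hK g hg, hw]⟩

end

end FOX
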