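import Pool.Agent.FOX.Stmts
import Pool.Agent.FOK.EA

/-!
# Module BRD: the relations of neighbours in the models
-/

namespace FOX

open Lib_helper64.FO FO2 FOK FOI
open scoped RealInnerProductSpace

noncomputable section

namespace BRD

variable {D : ℕ}

theorem span_u {n : ℕ} {u : Fin n → E D} {I : Submodule ℝ (E D)} (hI : Module.finrank ℝ I = n)
    (hu : ∀ i, u i ∈ I) (ho : Orthonormal ℝ u) : Submodule.span ℝ (Set.range u) = I := by
  refine Submodule.eq_of_le_of_finrank_le (Submodule.span_le.2 ?_) ?_
  · rintro _ ⟨i, rfl⟩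
    exact hu i
  · rw [hI, finrank_span_eq_card ho.linearIndependent, Fintype.card_fin]

/-- the braid relation of three points -/
theorem swap3 {ι : Type} [DecidableEq ι] {a b c : ι} (hab : a ≠ b) (hbc : b ≠ c) (hac : a ≠ c)
    (x : ι) : Equiv.swap a b (Equiv.swap b c (Equiv.swap a b (Equiv.swap b c
      (Equiv.swap a b (Equiv.swap b c x))))) = x := by
  by_cases h1 : x = a
  · subst h1
    rw [Equiv.swap_apply_of_ne_of_ne hab hac, Equiv.swap_apply_left, Equiv.swap_apply_left,
      Equiv.swap_apply_of_ne_of_ne hac.symm hbc.symm, Equiv.swap_apply_right,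
      Equiv.swap_apply_right]
  · by_cases h2 : x = b
    · subst h2
      rw [Equiv.swap_apply_left, Equiv.swap_apply_of_ne_of_ne hac.symm hbc.symm,
        Equiv.swap_apply_right, Equiv.swap_apply_right,
        Equiv.swap_apply_of_ne_of_ne hab hac, Equiv.swap_apply_left]
    · by_cases h3 : x = c
      · subst h3
        rw [Equiv.swap_apply_right, Equiv.swap_apply_right,
          Equiv.swap_apply_of_ne_of_ne hab hac, Equiv.swap_apply_left, Equiv.swap_apply_left,
          Equiv.swap_apply_of_ne_of_ne hac.symm hbc.symm]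
      · rw [Equiv.swap_apply_of_ne_of_ne h2 h3, Equiv.swap_apply_of_ne_of_ne h1 h2,
          Equiv.swap_apply_of_ne_of_ne h2 h3, Equiv.swap_apply_of_ne_of_ne h1 h2,
          Equiv.swap_apply_of_ne_of_ne h2 h3, Equiv.swap_apply_of_ne_of_ne h1 h2]

/-- extension from a spanning family -/
theorem ext_b {ι : Type} {b : ι → E D} {I : Submodule ℝ (E D)}
    (hs : Submodule.span ℝ (Set.range b) = I) (f : E D →ₗ[ℝ] E D) (h : ∀ i, f (b i) = b i) {v : E D}
    (hv : v ∈ I) : f v = v := by
  rw [← hs] at hv
  have h1 : Set.EqOn f (LinearMap.id : E D →ₗ[ℝ] E D) (Set.range b) := by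
    rintro _ ⟨i, rfl⟩
    exact h i
  exact LinearMap.eqOn_span h1 hv

theorem mem_b {ι : Type} {b : ι → E D} {I : Submodule ℝ (E D)}
    (hs : Submodule.span ℝ (Set.range b) = I) (f : E D →ₗ[ℝ] E D) (h : ∀ i, f (b i) ∈ I) {v : E D}
    (hv : v ∈ I) : f v ∈ I := by
  rw [← hs] at hv
  have h1 : Submodule.span ℝ (Set.range b) ≤ I.comap f := by
    rw [Submodule.span_le]
    rintro _ ⟨i, rfl⟩
    exact h i
  exact h1 hv

/-- a linear isometry as a linear map -/
def lm (f : E D ≃ₗᵢ[ℝ] E D) : E D →ₗ[ℝ] E D := f.toLinearEquiv.toLinearMap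

theorem lm_apply (f : E D ≃ₗᵢ[ℝ] E D) (v : E D) : lm f v = f v := rfl

theorem ext2 {ι : Type} {b : ι → E D} {I : Submodule ℝ (E D)}
    (hs : Submodule.span ℝ (Set.range b) = I) (f : E D ≃ₗᵢ[ℝ] E D)
    (hb : ∀ i, f (b i) ∈ I) (h : ∀ i, f (f (b i)) = b i) {v : E D} (hv : v ∈ I) :
    f v ∈ I ∧ f (f v) = v :=
  ⟨mem_b hs (lm f) hb hv, ext_b hs (lm f ∘ₗ lm f) h hv⟩

theorem ext6 {ι : Type} {b : ι → E D} {I : Submodule ℝ (E D)}
    (hs : Submodule.span ℝ (Set.range b) = I) (p q : E D ≃ₗᵢ[ℝ] E D)
    (h : ∀ i, p (q (p (q (p (q (b i)))))) = b i) {v : E D} (hv : v ∈ I) :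
    p (q (p (q (p (q v))))) = v :=
  ext_b hs (lm p ∘ₗ lm q ∘ₗ lm p ∘ₗ lm q ∘ₗ lm p ∘ₗ lm q) h hv

end BRD

open BRD in
theorem t_BRD : S_BRD := by
  intro D n ε I y g hL hε
  obtain ⟨hI, hS | hC | hX⟩ := hL
  · -- simplex
    obtain ⟨v, hv, hg, -, hgv⟩ := hS
    have hs := EA.span_v hg hI hv
    refine ⟨?_, ?_⟩
    · intro j hj w hw
      refine ext2 hs (g j) ?_ ?_ hw
      · intro i
        rw [hgv ⟨j, hj⟩ i]
        exact hv _
      · intro i
        rw [hgv ⟨j, hj⟩ i, hgv ⟨j, hj⟩, Equiv.swap_apply_self]
    · intro j h1 _ h2 w hw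
      refine ext6 hs (g j) (g (j + 1)) ?_ hw
      intro i
      have e1 : ∀ i, g j (v i) = v (Equiv.swap (⟨j, by omega⟩ : Fin (n + 1)) ⟨j + 1, by omega⟩ i) :=
        fun i => hgv ⟨j, by omega⟩ i
      have e2 : ∀ i, g (j + 1) (v i) =
          v (Equiv.swap (⟨j + 1, by omega⟩ : Fin (n + 1)) ⟨j + 2, by omega⟩ i) :=
        fun i => hgv ⟨j + 1, by omega⟩ i
      rw [e2, e1, e2, e1, e2, e1, swap3]
      all_goals
        intro h
        have h9 := congrArg Fin.val h
        simp only at h9
        omega
  · -- cube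
    obtain ⟨u, hu, ho, -, hgu⟩ := hC
    have hs := span_u hI hu ho
    have e0 : ∀ (j : ℕ) (hj : j < n), 1 ≤ j → ∀ i, g j (u i) =
        u (Equiv.swap (⟨j - 1, by omega⟩ : Fin n) ⟨j, hj⟩ i) := by
      intro j hj h1 i
      have h2 := hgu ⟨j, hj⟩ i
      rw [if_neg (by simp; omega)] at h2
      exact h2
    refine ⟨?_, ?_⟩
    · intro j hj w hw
      rcases Nat.eq_zero_or_pos j with rfl | h1
      · have e1 : ∀ i, g 0 (u i) = if i = ⟨0, hj⟩ then - u i else u i := by
          intro i
          have h2 := hgu ⟨0, hj⟩ i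
          rw [if_pos rfl] at h2
          exact h2
        refine ext2 hs (g 0) ?_ ?_ hw
        · intro i
          rw [e1]
          split_ifs
          · exact neg_mem (hu i)
          · exact hu i
        · intro i
          rw [e1]
          split_ifs with h
          · rw [map_neg, e1, if_pos h, neg_neg]
          · rw [e1, if_neg h]
      · refine ext2 hs (g j) ?_ ?_ hw
        · intro i
          rw [e0 j hj h1]
          exact hu _
        · intro i
          rw [e0 j hj h1, e0 j hj h1, Equiv.swap_apply_self]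
    · intro j h1 _ h2 w hw
      refine ext6 hs (g j) (g (j + 1)) ?_ hw
      intro i
      have e1 := e0 j (by omega) h1
      have e2 : ∀ i, g (j + 1) (u i) =
          u (Equiv.swap (⟨j, by omega⟩ : Fin n) ⟨j + 1, by omega⟩ i) :=
        fun i => e0 (j + 1) (by omega) (by omega) i
      rw [e2, e1, e2, e1, e2, e1, swap3]
      all_goals
        intro h
        have h9 := congrArg Fin.val h
        simp only at h9
        omega
  · -- cross-polytope
    obtain ⟨u, hu, ho, -, hgu⟩ := hX
    have hs := span_u hI hu ho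
    have hεε : ε * ε = 1 := by
      rcases hε with rfl | rfl <;> norm_num
    -- swaps
    have e0 : ∀ (j : ℕ) (hj : j + 1 < n), j ≠ 1 ∨ ε = 1 → ∀ i, g j (u i) =
        u (Equiv.swap (⟨j, by omega⟩ : Fin n) ⟨j + 1, hj⟩ i) := by
      intro j hj h1 i
      have h2 := hgu ⟨j, by omega⟩ i
      rw [dif_pos (show (⟨j, by omega⟩ : Fin n).val + 1 < n from hj)] at h2
      by_cases h3 : (⟨j, by omega⟩ : Fin n).val = 1 ∧ 3 ≤ i.val
      · rw [if_pos h3] at h2
        have h4 : j = 1 := h3.1
        have h5 : ε = 1 := by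
          rcases h1 with h1 | h1
          · exact absurd h4 h1
          · exact h1
        have h6 := h3.2
        rw [h5, one_smul] at h2
        rw [Equiv.swap_apply_of_ne_of_ne]
        · exact h2
        · intro h7
          have h8 := congrArg Fin.val h7
          simp at h8
          omega
        · intro h7
          have h8 := congrArg Fin.val h7
          simp at h8
          omega
      · rw [if_neg h3] at h2
        exact h2
    refine ⟨?_, ?_⟩
    · intro j hj w hw
      by_cases hj1 : j + 1 < n
      · by_cases hj2 : j ≠ 1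
        · refine ext2 hs (g j) ?_ ?_ hw
          · intro i
            rw [e0 j hj1 (Or.inl hj2)]
            exact hu _
          · intro i
            rw [e0 j hj1 (Or.inl hj2), e0 j hj1 (Or.inl hj2), Equiv.swap_apply_self]
        · have hj3 : j = 1 := not_not.1 hj2
          subst hj3
          have e1 : ∀ i : Fin n, g 1 (u i) = if 3 ≤ i.val then ε • u i else
              u (Equiv.swap (⟨1, hj⟩ : Fin n) ⟨2, hj1⟩ i) := by
            intro i
            have h2 := hgu ⟨1, hj⟩ i
            rw [dif_pos (show (⟨1, hj⟩ : Fin n).val + 1 < n from hj1)] at h2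
            rw [h2]
            by_cases h3 : 3 ≤ i.val
            · rw [if_pos ⟨rfl, h3⟩, if_pos h3]
            · rw [if_neg (fun h => h3 h.2), if_neg h3]
          refine ext2 hs (g 1) ?_ ?_ hw
          · intro i
            rw [e1]
            split_ifs
            · exact Submodule.smul_mem _ _ (hu i)
            · exact hu _
          · intro i
            rw [e1]
            split_ifs with h
            · rw [map_smul, e1, if_pos h, smul_smul, hεε, one_smul]
            · rw [e1, if_neg, Equiv.swap_apply_self]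
              rw [Equiv.swap_apply_def]
              split_ifs with h3 h4
              · simp
              · simp
              · exact h
      · have hjn : j + 1 = n := by omega
        have e1 : ∀ i, g j (u i) = if i = ⟨j, hj⟩ then - u i else u i := by
          intro i
          have h2 := hgu ⟨j, hj⟩ i
          rw [dif_neg (show ¬ (⟨j, hj⟩ : Fin n).val + 1 < n from hj1)] at h2
          exact h2
        refine ext2 hs (g j) ?_ ?_ hw
        · intro i
          rw [e1]
          split_ifs
          · exact neg_mem (hu i)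
          · exact hu i
        · intro i
          rw [e1]
          split_ifs with h
          · rw [map_neg, e1, if_pos h, neg_neg]
          · rw [e1, if_neg h]
    · intro j h1 h3 h2 w hw
      refine ext6 hs (g j) (g (j + 1)) ?_ hw
      intro i
      have e1 := e0 j (by omega) (by
        rcases h3 with h3 | h3
        · exact Or.inr h3
        · exact Or.inl (by omega))
      have e2 := e0 (j + 1) (by omega) (Or.inl (by omega))
      rw [e2, e1, e2, e1, e2, e1, swap3]
      all_goals
        intro h
        have h9 := congrArg Fin.val h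
        simp only at h9
        omega

end

end FOX
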