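import Pool.Agent.FOX.Stmts

/-!
# Module CHN: the chain of the groups `⟨π j, j ≥ i⟩`
-/

set_option autoImplicit false

namespace FOX

open Lib_helper64.FO FO2 FOI

namespace CHN

/-- the group generated by the `π j`, `j ≥ i` -/
def Cg {d : ℕ} {A : Type} (M : Datum d A) (i : ℕ) : Subgroup (Equiv.Perm A) :=
  Subgroup.closure (M.π '' {j | i ≤ j.val})

theorem Cg_anti {d : ℕ} {A : Type} (M : Datum d A) (i : ℕ) : Cg M (i + 1) ≤ Cg M i := by
  apply Subgroup.closure_mono
  apply Set.image_mono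
  intro j hj
  change i ≤ j.val
  have : i + 1 ≤ j.val := hj
  omega

theorem Cg_ne {d : ℕ} {A : Type} (M : Datum d A) (i : ℕ) (hi : 1 ≤ i) (j : Fin d) (hj : i ≤ j.val)
    (h1 : M.π j ≠ 1) : Cg M (i + 1) ≠ Cg M i := by
  intro he
  -- normality
  have hc : ∀ k : Fin d, k.val < i → ∀ x ∈ Cg M (i + 1), M.π k * x = x * M.π k := by
    intro k hk x hx
    refine Subgroup.closure_induction (p := fun x _ => M.π k * x = x * M.π k) ?_ ?_ ?_ ?_ hx
    · rintro x ⟨l, hl, rfl⟩
      have : i + 1 ≤ l.val := hl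
      exact M.comm k l (by omega)
    · rw [mul_one, one_mul]
    · intro x y _ _ hx hy
      rw [← mul_assoc, hx, mul_assoc, hy, mul_assoc]
    · intro x _ hx
      have h2 : x⁻¹ * (M.π k * x) * x⁻¹ = x⁻¹ * (x * M.π k) * x⁻¹ := by rw [hx]
      have h3 : x⁻¹ * (M.π k * x) * x⁻¹ = x⁻¹ * M.π k := by group
      have h4 : x⁻¹ * (x * M.π k) * x⁻¹ = M.π k * x⁻¹ := by group
      rw [← h4, ← h3, h2]
  have hn : ∀ k : Fin d, ∀ x ∈ Cg M i, M.π k * x * (M.π k)⁻¹ ∈ Cg M i ∧
      (M.π k)⁻¹ * x * M.π k ∈ Cg M i := by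
    intro k x hx
    by_cases hk : k.val < i
    · have h2 := hc k hk x (he ▸ hx)
      have h3 : M.π k * x * (M.π k)⁻¹ = x := by rw [h2]; group
      have h4 : (M.π k)⁻¹ * x * M.π k = x := by rw [mul_assoc, ← h2]; group
      rw [h3, h4]
      exact ⟨hx, hx⟩
    · have hk2 : M.π k ∈ Cg M i := by
        apply Subgroup.subset_closure
        exact ⟨k, by change i ≤ k.val; omega, rfl⟩
      exact ⟨mul_mem (mul_mem hk2 hx) (inv_mem hk2), mul_mem (mul_mem (inv_mem hk2) hx) hk2⟩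
  have hn2 : ∀ q ∈ Subgroup.closure (Set.range M.π), ∀ x ∈ Cg M i, q * x * q⁻¹ ∈ Cg M i ∧
      q⁻¹ * x * q ∈ Cg M i := by
    intro q hq
    refine Subgroup.closure_induction (p := fun q _ => ∀ x ∈ Cg M i, q * x * q⁻¹ ∈ Cg M i ∧
      q⁻¹ * x * q ∈ Cg M i) ?_ ?_ ?_ ?_ hq
    · rintro q ⟨k, rfl⟩ x hx
      exact hn k x hx
    · intro x hx
      constructor
      · rwa [one_mul, inv_one, mul_one]
      · rwa [inv_one, one_mul, mul_one]
    · intro a b _ _ ha hb x hx
      constructor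
      · have h2 := (ha _ (hb x hx).1).1
        have h3 : a * (b * x * b⁻¹) * a⁻¹ = a * b * x * (a * b)⁻¹ := by group
        rwa [h3] at h2
      · have h2 := (hb _ (ha x hx).2).2
        have h3 : b⁻¹ * (a⁻¹ * x * a) * b = (a * b)⁻¹ * x * (a * b) := by group
        rwa [h3] at h2
    · intro a _ ha x hx
      rw [inv_inv]
      exact ⟨(ha x hx).2, (ha x hx).1⟩
  have hf : ∀ x ∈ Cg M i, x M.a0 = M.a0 := by
    intro x hx
    refine Subgroup.closure_induction (p := fun x _ => x M.a0 = M.a0) ?_ ?_ ?_ ?_ hx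
    · rintro x ⟨l, hl, rfl⟩
      have : i ≤ l.val := hl
      exact M.fix l (by omega)
    · rfl
    · intro a b _ _ ha hb
      rw [Equiv.Perm.mul_apply, hb, ha]
    · intro a _ ha
      rw [Equiv.Perm.inv_eq_iff_eq, ha]
  apply h1
  have hm : M.π j ∈ Cg M i := by
    apply Subgroup.subset_closure
    exact ⟨j, hj, rfl⟩
  ext a
  obtain ⟨q, hq, rfl⟩ := M.trans a
  have h2 := hf _ (hn2 q hq _ hm).2
  rw [Equiv.Perm.mul_apply, Equiv.Perm.mul_apply, Equiv.Perm.inv_eq_iff_eq] at h2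
  rw [h2]
  rfl

theorem main {d : ℕ} {A : Type} (M : Datum d A) (j : Fin d) (h1 : M.π j ≠ 1) (n : ℕ) :
    ∀ i, 1 ≤ i → i + n = j.val + 1 → Finite (Cg M i) → 2 ^ n ≤ Nat.card (Cg M i) := by
  induction n with
  | zero =>
    intro i _ _ hfin
    rw [pow_zero]
    exact Nat.card_pos
  | succ n ih =>
    intro i hi hij hfin
    have hle := Cg_anti M i
    have hfin2 : Finite (Cg M (i + 1)) :=
      Finite.of_injective (Subgroup.inclusion hle) (Subgroup.inclusion_injective hle)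
    have h2 := ih (i + 1) (by omega) (by omega) hfin2
    obtain ⟨c, hc⟩ := Subgroup.card_dvd_of_le hle
    have h3 : 0 < Nat.card (Cg M i) := Nat.card_pos
    have h4 : c ≠ 0 := by
      rintro rfl
      omega
    have h5 : c ≠ 1 := by
      rintro rfl
      rw [mul_one] at hc
      apply Cg_ne M i hi j (by omega) h1
      exact Subgroup.eq_of_le_of_card_ge hle (by rw [hc])
    have h6 : 2 ≤ c := by omega
    rw [hc, pow_succ]
    exact Nat.mul_le_mul h2 h6

end CHN

/-- Module CHN. -/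
theorem t_CHN : S_CHN := by
  intro d A M i hi hfin j hj h1
  exact CHN.main M j h1 (j.val - i + 1) i hi (by omega) hfin

end FOX
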