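import Pool.Agent.FOX.Stmts

/-!
B3: a counting lemma for subgroups (MP_0bb2d9_co).
-/

namespace FOX

theorem t_CNT : S_CNT := by
  intro Q _ D G H k e hDG hk hk0 hfin hcard
  have h0 : H.relIndex G ≠ 0 := by rw [hk]; exact hk0
  have h1 : H.relIndex D ≤ k := by
    rw [← hk]
    exact Subgroup.relIndex_le_of_le_right hDG h0
  have h2 : H.relIndex D ≠ 0 := fun h => by
    have h3 := Subgroup.relIndex_ne_zero_trans (H := H) (K := G) (L := G) h0
      (by rw [Subgroup.relIndex_self]; exact one_ne_zero)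
    exact h3 (Subgroup.relIndex_eq_zero_of_le_right hDG h)
  -- the subgroup of `D`
  let e1 : (H.subgroupOf D) ≃ (D ⊓ H : Subgroup Q) :=
    { toFun := fun x => ⟨x.1.1, x.1.2, x.2⟩
      invFun := fun x => ⟨⟨x.1, x.2.1⟩, x.2.2⟩
      left_inv := fun _ => rfl
      right_inv := fun _ => rfl }
  have hf1 : Finite (H.subgroupOf D) := Finite.of_equiv _ e1.symm
  have hc1 : Nat.card (H.subgroupOf D) = Nat.card (D ⊓ H : Subgroup Q) := Nat.card_congr e1
  have hfi : (H.subgroupOf D).FiniteIndex := ⟨h2⟩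
  have hfD : Finite D := (Subgroup.finite_iff_finite_and_finiteIndex (H := H.subgroupOf D)).2
    ⟨hf1, hfi⟩
  refine ⟨hfD, ?_⟩
  have h4 := Subgroup.card_mul_index (H.subgroupOf D)
  rw [← h4, hc1]
  exact Nat.mul_le_mul hcard h1

end FOX
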