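import Pool.Agent.FOX.Stmts
import Pool.Agent.FOK.QEG

/-!
# FOX, CPG: base flag, generators and words in the coset poset
-/

namespace FOX

open Lib_helper64.FO FO2 FOK FOI
open scoped RealInnerProductSpace

noncomputable section

namespace CPG

open FO2.COA FOK.QEG

variable {d : ℕ} {Y : Type} {S : SGen d Y}

theorem word (hd : 0 < d) (w : List (Fin d)) :
    ∃ hw : (w.map S.σ).prod ∈ S.par Set.univ,
      (w.map (gen S)).prod (fc (cos S ⟨0, hd⟩ 1 (one_mem _))) =
        fc (cos S ⟨0, hd⟩ (w.map S.σ).prod hw) := by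
  induction w with
  | nil => exact ⟨one_mem _, rfl⟩
  | cons j w ih =>
    obtain ⟨hw, e⟩ := ih
    refine ⟨mul_mem (σ_mem S j) hw, ?_⟩
    rw [List.map_cons, List.prod_cons]
    change gen S j ((w.map (gen S)).prod (fc (cos S ⟨0, hd⟩ 1 (one_mem _)))) = _
    rw [e, gen_cos]
    rfl

end CPG

open FO2.COA FOK.QEG in
theorem t_CPG : S_CPG := by
  intro d Y S hd hS
  refine ⟨base S, gen S, fc (cos S ⟨0, hd⟩ 1 (one_mem _)), ?_,
    fc_mem_base.2 (mem_cos S _ 1 (one_mem _)), rfl, ?_⟩
  · intro j
    constructor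
    · intro h
      have h1 : fc (cos S j 1 (one_mem _)) ∈ base S := fc_mem_base.2 (mem_cos S _ 1 (one_mem _))
      have h2 : gen S j (fc (cos S j 1 (one_mem _))) ∈ (gen S j • base S : Flag (CPos S)) := by
        change gen S j (fc (cos S j 1 (one_mem _))) ∈
          ((gen S j • base S : Flag (CPos S)) : Set (CPos S))
        rw [Flag.coe_smul]
        exact ⟨_, h1, rfl⟩
      rw [h, gen_cos, fc_mem_base] at h2
      obtain ⟨b, hb, e⟩ := h2
      rw [mul_one] at e
      have h3 : S.σ j = b⁻¹ := eq_inv_of_mul_eq_one_left e.symm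
      have h4 : S.σ j ∈ S.par {i | i ≠ j} := by
        rw [h3]
        exact inv_mem hb
      have h5 : S.σ j ∈ S.par {i | i = j} := Subgroup.subset_closure ⟨j, rfl, rfl⟩
      have h6 : S.σ j ∈ S.par ({i | i ≠ j} ∩ {i | i = j}) := by
        rw [← hS.inter]
        exact ⟨h4, h5⟩
      have e7 : ({i | i ≠ j} ∩ {i | i = j} : Set (Fin d)) = ∅ := by
        ext i
        simp
      rw [e7, SGen.par, Set.image_empty, Subgroup.closure_empty, Subgroup.mem_bot] at h6
      exact hS.ne_one j h6
    · intro x hx hr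
      rcases mem_base.1 hx with rfl | rfl | ⟨K, hK, rfl⟩
      · exact lmulC_bot _ _
      · exact lmulC_top _ _
      · rw [gen, lmulC_coe]
        congr 1
        refine CFace.ext' rfl ?_
        have hne : j ≠ K.rank := by
          intro h
          apply hr
          change ((K.rank.val : ℕ) : ℤ) = _
          rw [h]
        have hσ : S.σ j ∈ S.par {i | i ≠ K.rank} := Subgroup.subset_closure ⟨j, hne, rfl⟩
        ext p
        rw [mem_lmul, K.coset_eq hK]
        simp only [one_mul]
        constructor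
        · rintro ⟨b, hb, e⟩
          refine ⟨S.σ j * b, mul_mem hσ hb, ?_⟩
          rw [← e]
          group
        · rintro ⟨b, hb, rfl⟩
          exact ⟨(S.σ j)⁻¹ * p, mul_mem (inv_mem hσ) hb, by group⟩
  · intro w
    obtain ⟨hw, e⟩ := CPG.word (S := S) hd w
    exact ⟨cos S ⟨0, hd⟩ (w.map S.σ).prod hw, e, mem_cos S _ _ hw⟩

end

end FOX
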