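import Pool.Agent.FOX.Stmts

/-!
# Module KER: kernel of the action on the values
-/

namespace FOX

open Lib_helper64.FO FO2 FOK FOI
open scoped RealInnerProductSpace

noncomputable section

namespace KER

variable {d : ℕ} {G : Type} [Group G]

theorem rev_prod (s : Fin d → G) (hs : ∀ j, s j * s j = 1) (u : List (Fin d)) :
    (u.reverse.map s).prod = ((u.map s).prod)⁻¹ := by
  induction u with
  | nil => simp
  | cons j u ih =>
    rw [List.reverse_cons, List.map_append, List.prod_append, ih, List.map_cons, List.prod_cons,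
      List.map_cons, List.map_nil, List.prod_cons, List.prod_nil, mul_one, mul_inv_rev]
    congr 1
    exact (inv_eq_of_mul_eq_one_right (hs j)).symm

theorem exists_word (s : Fin d → G) (hs : ∀ j, s j * s j = 1) {q : G}
    (hq : q ∈ Subgroup.closure (Set.range s)) : ∃ u : List (Fin d), (u.map s).prod = q := by
  induction hq using Subgroup.closure_induction with
  | mem x hx =>
    obtain ⟨j, rfl⟩ := hx
    exact ⟨[j], by simp⟩
  | one => exact ⟨[], by simp⟩
  | mul x y _ _ h1 h2 =>
    obtain ⟨u, rfl⟩ := h1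
    obtain ⟨v, rfl⟩ := h2
    exact ⟨u ++ v, by rw [List.map_append, List.prod_append]⟩
  | inv x _ h1 =>
    obtain ⟨u, rfl⟩ := h1
    exact ⟨u.reverse, rev_prod s hs u⟩

/-- the values of `s` on the words in the kernel of `ω` -/
def K {W : Type} [Group W] (s : Fin d → G) (ω : Fin d → W) (hs : ∀ j, s j * s j = 1)
    (hω : ∀ j, ω j * ω j = 1) : Subgroup G where
  carrier := {c | ∃ u : List (Fin d), (u.map s).prod = c ∧ (u.map ω).prod = 1}
  mul_mem' := by
    rintro _ _ ⟨u, rfl, hu⟩ ⟨v, rfl, hv⟩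
    refine ⟨u ++ v, ?_, ?_⟩
    · rw [List.map_append, List.prod_append]
    · rw [List.map_append, List.prod_append, hu, hv, one_mul]
  one_mem' := ⟨[], by simp, by simp⟩
  inv_mem' := by
    rintro _ ⟨u, rfl, hu⟩
    refine ⟨u.reverse, rev_prod s hs u, ?_⟩
    rw [rev_prod ω hω u, hu, inv_one]

section

variable {W : Type} [Group W] {s : Fin d → G} {ω : Fin d → W} {hs : ∀ j, s j * s j = 1}
    {hω : ∀ j, ω j * ω j = 1}

theorem conj_mem {c : G} (hc : c ∈ K s ω hs hω) (i : Fin d) : s i * c * s i ∈ K s ω hs hω := by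
  obtain ⟨u, rfl, hu⟩ := hc
  refine ⟨i :: (u ++ [i]), ?_, ?_⟩
  · simp [mul_assoc]
  · simp [hu, hω]

theorem step (i j : Fin d) (h3 : (ω i * ω j) ^ 3 = 1) (hj : s j ∈ K s ω hs hω) :
    s i ∈ K s ω hs hω := by
  have h1 : (s i * s j) ^ 3 ∈ K s ω hs hω := by
    refine ⟨[i, j, i, j, i, j], ?_, ?_⟩
    · simp [pow_succ, mul_assoc]
    · rw [← h3]; simp [pow_succ, mul_assoc]
  have h2 : s i * s j * s i ∈ K s ω hs hω := conj_mem hj i
  have h4 : s i = (s j)⁻¹ * (s i * s j * s i)⁻¹ * (s i * s j) ^ 3 * (s j)⁻¹ := by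
    simp only [pow_succ, pow_zero, one_mul]
    group
  rw [h4]
  exact mul_mem (mul_mem (mul_mem (inv_mem hj) (inv_mem h2)) h1) (inv_mem hj)

theorem down (j0 l : ℕ) (h3 : ∀ i j : Fin d, j0 ≤ i.val → i.val < l → j.val = i.val + 1 →
    (ω i * ω j) ^ 3 = 1) (hl : l < d) (h1 : ∀ j : Fin d, l ≤ j.val → s j = 1) (n : ℕ) :
    ∀ i : Fin d, j0 ≤ i.val → l ≤ i.val + n → s i ∈ K s ω hs hω := by
  induction n with
  | zero =>
    intro i _ hi
    rw [h1 i (by omega)]
    exact one_mem _
  | succ n ih =>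
    intro i hi0 hi
    by_cases h : l ≤ i.val
    · rw [h1 i h]
      exact one_mem _
    · have hj := ih ⟨i.val + 1, by omega⟩ (by change j0 ≤ i.val + 1; omega)
        (by change l ≤ i.val + 1 + n; omega)
      exact step i _ (h3 i ⟨i.val + 1, by omega⟩ hi0 (by omega) rfl) hj

end

end KER

open KER in
/-- Module KER. -/
theorem t_KER : S_KER := by
  intro d Γ _ X _ ρ x0 f W _ ω Φ A M j0 l hf hX hΦ hsep hw hω h3 hl h1 c hc hr
  have hK : c ∈ K M.π ω M.sq hω := by
    have : Subgroup.closure (M.π '' {j | j0 ≤ j.val}) ≤ K M.π ω M.sq hω := by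
      rw [Subgroup.closure_le]
      rintro _ ⟨j, hj, rfl⟩
      exact down j0 l h3 hl h1 l j hj (by omega)
    exact this hc
  obtain ⟨u, rfl, hu⟩ := hK
  -- `ρ_u` acts trivially
  have htriv : ∀ x : X, (u.map ρ).prod • x = x := by
    intro x
    obtain ⟨v, rfl⟩ := hX x
    apply hf
    have e1 := hw (u ++ v)
    rw [List.map_append, List.prod_append, List.map_append, List.prod_append, List.map_append,
      List.prod_append, hu, one_mul, mul_smul] at e1
    rw [e1, hw v, Equiv.Perm.mul_apply, hr]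
  have hval : ∀ w v : List (Fin d), M.r ((w.map M.π).prod ((u.map M.π).prod
      ((v.map M.π).prod M.a0))) = M.r ((w.map M.π).prod ((v.map M.π).prod M.a0)) := by
    intro w v
    have e1 := hw (w ++ (u ++ v))
    have e2 := hw (w ++ v)
    simp only [List.map_append, List.prod_append, mul_smul, htriv, hu, one_mul,
      Equiv.Perm.mul_apply] at e1 e2
    rw [e2] at e1
    exact (hΦ _ e1).symm
  apply Equiv.ext
  intro a
  obtain ⟨q, hq, rfl⟩ := M.trans a
  obtain ⟨v, rfl⟩ := exists_word M.π M.sq hq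
  rw [Equiv.Perm.one_apply]
  exact hsep _ _ fun w => hval w v

end

end FOX
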