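import Pool.Agent.FOX.Stmts
import Pool.Agent.FO2.GE2
import Pool.Agent.FOI.Poset

/-!
# The match of a polytope with the coset poset of its permutations (module MAT)
-/

namespace FOX

open Lib_helper64.FO FO2 FOK FOI
open FOL (bd)
open scoped RealInnerProductSpace Pointwise

noncomputable section

namespace MAT

/-- every element of a group generated by elements of order at most 2 is a word -/
theorem exists_word {d : ℕ} {Γ : Type} [Group Γ] (ρ : Fin d → Γ) (hsq : ∀ j, ρ j * ρ j = 1)
    (hgen : gpar (exG ρ) Set.univ = ⊤) (γ : Γ) : ∃ w : List (Fin d), (w.map ρ).prod = γ := by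
  have hγ : γ ∈ gpar (exG ρ) Set.univ := by
    rw [hgen]
    exact Subgroup.mem_top γ
  rw [gpar] at hγ
  refine Subgroup.closure_induction (p := fun g _ => ∃ w : List (Fin d), (w.map ρ).prod = g)
    ?_ ?_ ?_ ?_ hγ
  · rintro _ ⟨i, -, rfl⟩
    by_cases h : i < d
    · refine ⟨[⟨i, h⟩], ?_⟩
      rw [exG, dif_pos h]
      simp
    · refine ⟨[], ?_⟩
      rw [exG, dif_neg h]
      simp
  · exact ⟨[], by simp⟩
  · rintro a b - - ⟨w, hw⟩ ⟨w', hw'⟩
    refine ⟨w ++ w', ?_⟩
    rw [List.map_append, List.prod_append, hw, hw']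
  · rintro a - ⟨w, hw⟩
    have key : ∀ u : List (Fin d), (u.reverse.map ρ).prod = ((u.map ρ).prod)⁻¹ := by
      intro u
      induction u with
      | nil => simp
      | cons j u ih =>
        have h1 : (ρ j)⁻¹ = ρ j := inv_eq_of_mul_eq_one_left (hsq j)
        rw [List.reverse_cons, List.map_append, List.prod_append, ih, List.map_singleton,
          List.prod_singleton, List.map_cons, List.prod_cons, mul_inv_rev, h1]
    exact ⟨w.reverse, by rw [key w, hw]⟩

/-- the homomorphism which maps `ρ j` to `σ j` -/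
theorem exists_hom {d : ℕ} {Γ Q : Type} [Group Γ] [Group Q] (ρ : Fin d → Γ) (σ : Fin d → Q)
    (hw : ∀ γ : Γ, ∃ w : List (Fin d), (w.map ρ).prod = γ)
    (h : ∀ w w' : List (Fin d), (w.map σ).prod = (w'.map σ).prod ↔
      (w.map ρ).prod = (w'.map ρ).prod) :
    ∃ th : Γ →* Q, Function.Injective th ∧ ∀ w : List (Fin d), th (w.map ρ).prod =
      (w.map σ).prod := by
  choose W hW using hw
  have h1 : ∀ w : List (Fin d), ((W (w.map ρ).prod).map σ).prod = (w.map σ).prod := by
    intro w
    rw [h]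
    exact hW _
  refine ⟨⟨⟨fun γ => ((W γ).map σ).prod, ?_⟩, ?_⟩, ?_, ?_⟩
  · have := h1 []
    simpa using this
  · intro a b
    change ((W (a * b)).map σ).prod = ((W a).map σ).prod * ((W b).map σ).prod
    rw [← List.prod_append, ← List.map_append, h, hW, List.map_append, List.prod_append, hW, hW]
  · intro a b hab
    have h2 : ((W a).map σ).prod = ((W b).map σ).prod := hab
    rw [h, hW, hW] at h2
    exact h2
  · intro w
    exact h1 w

section

variable {d : ℕ} {P : Type} [PartialOrder P] {Y : Type}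

theorem map_gpar' (ρ : ℕ → (P ≃o P)) (hρ1 : ∀ i, d ≤ i → ρ i = 1) (S : SGen d Y)
    (th : (P ≃o P) →* Equiv.Perm Y) (h : ∀ i : Fin d, th (ρ i.val) = S.σ i) (I : Set ℕ) :
    (gpar ρ I).map th = S.par {j | j.val ∈ I} := by
  rw [gpar, MonoidHom.map_closure]
  apply le_antisymm
  · rw [Subgroup.closure_le]
    rintro _ ⟨_, ⟨i, hi, rfl⟩, rfl⟩
    by_cases hd : i < d
    · have h2 := h ⟨i, hd⟩
      change th (ρ i) = S.σ ⟨i, hd⟩ at h2
      rw [h2]
      exact Subgroup.subset_closure ⟨⟨i, hd⟩, hi, rfl⟩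
    · rw [hρ1 i (not_lt.1 hd), map_one]
      exact one_mem _
  · rw [SGen.par, Subgroup.closure_le]
    rintro _ ⟨j, hj, rfl⟩
    exact Subgroup.subset_closure ⟨ρ j.val, ⟨j.val, hj, rfl⟩, h j⟩

/-- the isomorphism with the coset poset -/
theorem main (hd : 1 ≤ d) {rk : P → ℤ} (hP : IsRegularPolytope d rk) (C : Flag P)
    (ρ : ℕ → (P ≃o P)) (hG : PolyGroup d rk C ρ) (S : SGen d Y)
    (th : (P ≃o P) →* Equiv.Perm Y) (hth : Function.Injective th)
    (hgen : ∀ i : Fin d, th (ρ i.val) = S.σ i) :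
    ∃ φ : P ≃o CPos S, (∀ x, rkC (φ x) = rk x) ∧ ∀ F0 ∈ C, rk F0 = 0 →
      ∀ (v : P) (K : CFace S), rk v = 0 → φ v = some (some K) → ∀ g ∈ K.coset,
        ∃ m : P ≃o P, g = th m ∧ m F0 = v := by
  obtain ⟨huniq, hbd, hrk, hchain, -⟩ := flag d P rk hP
  -- the faces of the base flag
  have hex : ∀ i : Fin d, ∃ x ∈ C, rk x = (i.val : ℤ) := fun i =>
    hP.flags C (i.val : ℤ) (by omega) (by have := i.isLt; omega)
  choose fc hfC hfr using hex
  have hfu : ∀ (i : Fin d) (x : P), x ∈ C → rk x = (i.val : ℤ) → x = fc i := fun i x hx hr =>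
    huniq C x (fc i) hx (hfC i) (hr.trans (hfr i).symm)
  have hstab : ∀ (i : Fin d) (g : P ≃o P), g (fc i) = fc i ↔ g ∈ gpar ρ {j | j ≠ i.val} :=
    fun i g => GE2.stab_iff hG i.val (hfC i) (hfr i)
      (fun y hy hr => hfu i y hy hr) g
  have hmap : ∀ i : Fin d, (gpar ρ {j | j ≠ i.val}).map th = S.par {j | j ≠ i} := by
    intro i
    have h1 := map_gpar' ρ hG.one_of_ge S th hgen {j | j ≠ i.val}
    rw [h1]
    congr 1
    ext j
    simp [Fin.ext_iff]
  have hmapu : (⊤ : Subgroup (P ≃o P)).map th = S.par Set.univ := by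
    have h1 := map_gpar' ρ hG.one_of_ge S th hgen Set.univ
    rw [hG.gen] at h1
    rw [h1]
    congr 1
  -- every pair of comparable faces is in the image of the base flag
  have hreach : ∀ x y : P, x ≤ y → ∃ g : P ≃o P, (∀ i : Fin d, rk x = (i.val : ℤ) →
      g (fc i) = x) ∧ ∀ i : Fin d, rk y = (i.val : ℤ) → g (fc i) = y := by
    intro x y hxy
    obtain ⟨D, hD⟩ := hchain {x, y} (IsChain.pair hxy)
    obtain ⟨δ, hδ⟩ := hP.regular C D
    have key : ∀ z ∈ D, ∀ i : Fin d, rk z = (i.val : ℤ) → δ (fc i) = z := by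
      intro z hz i hr
      have h1 : z ∈ (δ • C : Flag P) := by rw [hδ]; exact hz
      have h2 : z ∈ δ • (C : Set P) := by
        rw [← Flag.coe_smul]
        exact h1
      obtain ⟨w, hw, rfl⟩ := h2
      have h3 : rk w = (i.val : ℤ) := by
        rw [← hr]
        exact (hrk δ w).symm
      have h4 : w = fc i := hfu i w hw h3
      rw [h4]
      rfl
    exact ⟨δ, key x (hD (by simp)), key y (hD (by simp))⟩
  -- the coset of a proper face
  have hcf : ∀ (i : Fin d) (x : P), rk x = (i.val : ℤ) → ∃ g ∈ S.par Set.univ,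
      {p : Equiv.Perm Y | ∃ g : P ≃o P, p = th g ∧ g (fc i) = x} =
        {p | ∃ h ∈ S.par {j | j ≠ i}, p = g * h} := by
    intro i x hx
    obtain ⟨g, hg, -⟩ := hreach x x le_rfl
    have hgx := hg i hx
    refine ⟨th g, ?_, ?_⟩
    · rw [← hmapu]
      exact ⟨g, trivial, rfl⟩
    · ext p
      constructor
      · rintro ⟨g', rfl, hg'⟩
        refine ⟨th (g⁻¹ * g'), ?_, ?_⟩
        · rw [← hmap i]
          refine ⟨g⁻¹ * g', ?_, rfl⟩
          rw [SetLike.mem_coe, ← hstab]
          have h1 : g' (fc i) = g (fc i) := hg'.trans hgx.symm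
          change g⁻¹ (g' (fc i)) = fc i
          rw [h1]
          change (g⁻¹ * g) (fc i) = fc i
          rw [inv_mul_cancel]
          rfl
        · rw [← map_mul, mul_inv_cancel_left]
      · rintro ⟨k, hk, rfl⟩
        rw [← hmap i] at hk
        obtain ⟨m, hm, rfl⟩ := hk
        rw [SetLike.mem_coe, ← hstab] at hm
        refine ⟨g * m, (map_mul _ _ _).symm, ?_⟩
        change g (m (fc i)) = x
        rw [hm, hgx]
  let cf : ∀ (i : Fin d) (x : P), rk x = (i.val : ℤ) → CFace S := fun i x hx =>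
    ⟨i, {p : Equiv.Perm Y | ∃ g : P ≃o P, p = th g ∧ g (fc i) = x}, hcf i x hx⟩
  have htri : ∀ x : P, rk x = -1 ∨ rk x = d ∨ ∃ i : Fin d, rk x = (i.val : ℤ) := by
    intro x
    obtain ⟨h1, h2⟩ := hbd x
    by_cases ha : rk x = -1
    · exact Or.inl ha
    · by_cases hb : rk x = d
      · exact Or.inr (Or.inl hb)
      · refine Or.inr (Or.inr ⟨⟨(rk x).toNat, by omega⟩, ?_⟩)
        change rk x = ((rk x).toNat : ℤ)
        omega
  have hex : ∀ x : P, ∃ z : CPos S, (rk x = -1 → z = ⊥) ∧
      (rk x = d → z = ((⊤ : WithTop (CFace S)) : CPos S)) ∧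
      ∀ (i : Fin d) (hx : rk x = (i.val : ℤ)),
        z = ((cf i x hx : WithTop (CFace S)) : CPos S) := by
    intro x
    rcases htri x with h1 | h1 | ⟨i, h1⟩
    · refine ⟨⊥, fun _ => rfl, fun h2 => ?_, fun j h2 => ?_⟩
      · exfalso; omega
      · exfalso; omega
    · refine ⟨((⊤ : WithTop (CFace S)) : CPos S), fun h2 => ?_, fun _ => rfl, fun j h2 => ?_⟩
      · exfalso; omega
      · exfalso; have := j.isLt; omega
    · refine ⟨((cf i x h1 : WithTop (CFace S)) : CPos S), fun h2 => ?_, fun h2 => ?_,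
        fun j h2 => ?_⟩
      · exfalso; omega
      · exfalso; have := i.isLt; omega
      · have hij : i = j := by
          apply Fin.ext
          omega
        subst hij
        rfl
  choose φ hφ1 hφ2 hφ3 using hex
  -- least and greatest faces
  obtain ⟨bt, hbt, hbr⟩ := hP.bot
  obtain ⟨tp, htp, htr⟩ := hP.top
  have hbot : ∀ x, rk x = -1 → x = bt := by
    intro x hx
    by_contra hne
    have := hP.strict bt x (lt_of_le_of_ne (hbt x) (fun h => hne h.symm))
    omega
  have htop : ∀ x, rk x = d → x = tp := by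
    intro x hx
    by_contra hne
    have := hP.strict x tp (lt_of_le_of_ne (htp x) hne)
    omega
  have hmono : ∀ x y : P, x ≤ y → rk x ≤ rk y := by
    intro x y hxy
    rcases eq_or_lt_of_le hxy with rfl | h1
    · exact le_rfl
    · exact (hP.strict x y h1).le
  have hfle : ∀ i j : Fin d, i ≤ j → fc i ≤ fc j := by
    intro i j hij
    rcases C.le_or_le (hfC i) (hfC j) with h1 | h1
    · exact h1
    · rcases eq_or_lt_of_le h1 with h2 | h2
      · exact h2.ge
      · exfalso
        have h3 := hP.strict _ _ h2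
        rw [hfr, hfr] at h3
        have h4 : i.val ≤ j.val := hij
        omega
  have hle : ∀ x y : P, φ x ≤ φ y ↔ x ≤ y := by
    intro x y
    rcases htri x with hx | hx | ⟨i, hx⟩
    · rw [hφ1 x hx, hbot x hx]
      exact iff_of_true bot_le (hbt y)
    · rcases htri y with hy | hy | ⟨j, hy⟩
      · rw [hφ2 x hx, hφ1 y hy]
        refine iff_of_false (fun h1 => ?_) (fun h1 => ?_)
        · exact WithBot.coe_ne_bot (le_bot_iff.1 h1)
        · have := hmono x y h1
          omega
      · rw [htop x hx, htop y hy]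
        exact iff_of_true le_rfl le_rfl
      · rw [hφ2 x hx, hφ3 y j hy]
        refine iff_of_false (fun h1 => ?_) (fun h1 => ?_)
        · rw [WithBot.coe_le_coe] at h1
          exact WithTop.coe_ne_top (top_le_iff.1 h1)
        · have := hmono x y h1
          have := j.isLt
          omega
    · rcases htri y with hy | hy | ⟨j, hy⟩
      · rw [hφ3 x i hx, hφ1 y hy]
        refine iff_of_false (fun h1 => ?_) (fun h1 => ?_)
        · exact WithBot.coe_ne_bot (le_bot_iff.1 h1)
        · have := hmono x y h1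
          omega
      · rw [hφ2 y hy, hφ3 x i hx, htop y hy]
        refine iff_of_true ?_ (htp x)
        rw [WithBot.coe_le_coe]
        exact le_top
      · rw [hφ3 x i hx, hφ3 y j hy, WithBot.coe_le_coe, WithTop.coe_le_coe, CFace.le_def]
        constructor
        · rintro ⟨h1, p, ⟨g, hg, hgx⟩, ⟨g', hg', hgy⟩⟩
          have h2 : g = g' := hth (hg.symm.trans hg')
          subst h2
          rw [← hgx, ← hgy]
          exact g.monotone (hfle i j h1)
        · intro h1
          refine ⟨?_, ?_⟩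
          · have h2 := hmono x y h1
            change i ≤ j
            rw [Fin.le_def]
            omega
          · obtain ⟨g, hgx, hgy⟩ := hreach x y h1
            exact ⟨th g, ⟨g, rfl, hgx i hx⟩, ⟨g, rfl, hgy j hy⟩⟩
  have hsurj : Function.Surjective φ := by
    intro z
    induction z using WithBot.recBotCoe with
    | bot => exact ⟨bt, hφ1 bt hbr⟩
    | coe z =>
      induction z using WithTop.recTopCoe with
      | top => exact ⟨tp, hφ2 tp htr⟩
      | coe K =>
        obtain ⟨i, s, g0, hg0, hs⟩ := K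
        rw [← hmapu] at hg0
        obtain ⟨g, -, rfl⟩ := hg0
        have hr : rk (g (fc i)) = (i.val : ℤ) := by rw [hrk, hfr]
        refine ⟨g (fc i), ?_⟩
        rw [hφ3 _ i hr]
        congr 2
        refine CFace.ext' rfl ?_
        change {p : Equiv.Perm Y | ∃ g' : P ≃o P, p = th g' ∧ g' (fc i) = g (fc i)} = s
        rw [hs]
        ext p
        constructor
        · rintro ⟨g', rfl, hg'⟩
          refine ⟨th (g⁻¹ * g'), ?_, ?_⟩
          · rw [← hmap i]
            refine ⟨g⁻¹ * g', ?_, rfl⟩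
            rw [SetLike.mem_coe, ← hstab]
            have h1 : g' (fc i) = g (fc i) := hg'
            change g⁻¹ (g' (fc i)) = fc i
            rw [h1]
            change (g⁻¹ * g) (fc i) = fc i
            rw [inv_mul_cancel]
            rfl
          · rw [← map_mul, mul_inv_cancel_left]
        · rintro ⟨k, hk, rfl⟩
          have hk' : k ∈ S.par {j | j ≠ i} := hk
          rw [← hmap i] at hk'
          obtain ⟨m, hm, rfl⟩ := hk'
          rw [SetLike.mem_coe, ← hstab] at hm
          refine ⟨g * m, (map_mul _ _ _).symm, ?_⟩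
          change g (m (fc i)) = g (fc i)
          rw [hm]
  refine ⟨RelIso.ofSurjective (OrderEmbedding.ofMapLEIff φ hle) hsurj, ?_, ?_⟩
  · intro x
    change rkC (φ x) = rk x
    rcases htri x with hx | hx | ⟨i, hx⟩
    · rw [hφ1 x hx, hx]
      rfl
    · rw [hφ2 x hx, hx]
      rfl
    · rw [hφ3 x i hx, hx]
      rfl
  · intro F0 hF0 hF0r v K hv hK g hg
    have hd0 : 0 < d := by omega
    have hv' : rk v = ((⟨0, hd0⟩ : Fin d).val : ℤ) := by rw [hv]; rfl
    have h1 : φ v = some (some K) := hK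
    rw [hφ3 v ⟨0, hd0⟩ hv'] at h1
    have h2 : cf ⟨0, hd0⟩ v hv' = K := Option.some.inj (Option.some.inj h1)
    rw [← h2] at hg
    obtain ⟨m, rfl, hm⟩ := hg
    have h4 : F0 = fc ⟨0, hd0⟩ := hfu _ _ hF0 (by rw [hF0r]; rfl)
    exact ⟨m, rfl, by rw [h4]; exact hm⟩

end

end MAT

open MAT in
/-- A6: the match. -/
theorem t_MAT : S_MAT := by
  intro d P _ rk hd hP f C ρ hρ F0 hF0 hF0r c p hf S hS hww
  have hG : PolyGroup d rk C (exG ρ) := gens d P rk hP C ρ hρ
  have hex : ∀ j : Fin d, exG ρ j.val = ρ j := by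
    intro j
    rw [exG, dif_pos j.isLt]
  have hsq : ∀ j, ρ j * ρ j = 1 := by
    intro j
    rw [← hex j]
    exact hG.sq j.val
  have hword : ∀ γ : P ≃o P, ∃ w : List (Fin d), (w.map ρ).prod = γ :=
    exists_word ρ hsq hG.gen
  obtain ⟨th, hth, hthw⟩ := exists_hom ρ S.σ hword hww
  have hgen : ∀ i : Fin d, th (exG ρ i.val) = S.σ i := by
    intro i
    have h1 := hthw [i]
    rw [hex i]
    simpa using h1
  obtain ⟨φ, hφ, hφ0⟩ := main hd hP C (exG ρ) hG S th hth hgen
  refine ⟨c, φ, hφ, ?_⟩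
  intro v K hv hK g hg
  obtain ⟨m, rfl, hm⟩ := hφ0 F0 hF0 hF0r v K hv hK g hg
  obtain ⟨w, rfl⟩ := hword m
  have hp : ∀ u : List (Fin d), (u.map S.σ).prod (p []) = p u := by
    intro u
    induction u with
    | nil => simp
    | cons j u ih =>
      rw [List.map_cons, List.prod_cons, Equiv.Perm.mul_apply, ih, hS]
  rw [hthw, hp, ← hm]
  exact hf w

end

end FOX
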