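import Pool.Agent.FOX.Stmts
import Pool.Agent.FOL.UF

/-!
# Module MBF: the number of nontrivial permutations of the datum, finite kind
-/

set_option autoImplicit false

namespace FOX

open Lib_helper64.FO FO2 FOK FOI
open FOL (bd)
open scoped RealInnerProductSpace

noncomputable section

namespace MBF

/-- the squares of the generators of a model -/
theorem sq {d : ℕ} {y : E d} {g : ℕ → (E d ≃ₗᵢ[ℝ] E d)} (hmod : LinModel d 1 ⊤ y g) :
    ∀ j : Fin d, g j * g j = 1 := by
  rcases mod_of_lin hmod with h | h | h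
  · exact QAS.sq_simplex h
  · exact QAS.sq_cross h
  · exact QAS.sq_cube h

/-- the index of the group of symmetries, for every datum -/
theorem index {d : ℕ} (hd : 6 ≤ d) {P : Type} [PartialOrder P] {rk : P → ℤ}
    (hP : IsRegularPolytope d rk) {f : P → E d} {C : Flag P} {ρ : Fin d → (P ≃o P)}
    (hρ : IsGens rk C ρ) (hRS : StmtQRS) (hRX : StmtQRX) (hRC : StmtQRC) (hCT : StmtQCT)
    {F0 : P} (hF0 : F0 ∈ C) (hr : rk F0 = 0) {c y : E d} {g : ℕ → (E d ≃ₗᵢ[ℝ] E d)} {A : Type}
    [Finite A] (M : Datum d A) (hl : ∃ l : Fin d, 1 ≤ l.val ∧ l.val + 2 ≤ d ∧ M.π l = 1)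
    (hmod : LinModel d 1 ⊤ y g) (hne : ∀ a, M.r a ≠ 0)
    (hw : ∀ w : List (Fin d), f ((w.map ρ).prod F0) =
      c + M.r ((w.map M.π).prod M.a0) • ((w.map fun j : Fin d => g j).prod y)) :
    (symGroup rk f).index = M.HF.relIndex M.C := by
  have hrich : Rich y (fun j : Fin d => g j) (toMix M hne) := by
    rcases mod_of_lin hmod with h | h | h
    · exact hRS d (by omega) _ _ A _ h hl
    · exact hRX d (by omega) _ _ A _ h hl
    · exact hRC d (by omega) _ _ A _ h hl
  have h1 := countF hCT (by omega) hP f C ρ hρ hF0 hr c y (fun j : Fin d => g j) A (toMix M hne)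
    hrich (sq hmod) (fun w => hw w)
  rw [← card_eq M hne] at h1
  exact Nat.eq_of_mul_eq_mul_right (QAS.card_HC_pos _) h1

/-- the elements of a group generated by involutions are words -/
theorem words {d : ℕ} {Γ : Type} [Group Γ] (ρ : Fin d → Γ) (h2 : ∀ j, ρ j * ρ j = 1) (γ : Γ)
    (hγ : γ ∈ Subgroup.closure (Set.range ρ)) : ∃ w : List (Fin d), (w.map ρ).prod = γ := by
  refine Subgroup.closure_induction (p := fun γ _ => ∃ w : List (Fin d), (w.map ρ).prod = γ)
    ?_ ?_ ?_ ?_ hγ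
  · rintro _ ⟨j, rfl⟩
    exact ⟨[j], by simp⟩
  · exact ⟨[], by simp⟩
  · rintro x z - - ⟨u, rfl⟩ ⟨v, rfl⟩
    exact ⟨u ++ v, by simp⟩
  · rintro x - ⟨u, rfl⟩
    refine ⟨u.reverse, ?_⟩
    induction u with
    | nil => simp
    | cons j u ih =>
      have h3 : (ρ j)⁻¹ = ρ j := inv_eq_of_mul_eq_one_left (h2 j)
      have h4 : ((j :: u).map ρ).prod = ρ j * (u.map ρ).prod := by simp
      rw [h4, mul_inv_rev, h3, List.reverse_cons, List.map_append, List.prod_append, ih]
      simp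

end MBF

theorem t_MBF : M_MBF := by
  intro hRS hRX hRC hCT hSEP hKER hCNT hCHN hBRD k d hk hd P _ rk hP f C ρ hρ hF hK
  obtain ⟨F0, hF0, hr, c, y, g, A, M, hA, hπ, hmod, hne, hidx, hw⟩ := hK
  have hb := FOI.L.bd_ge k
  have hsq := MBF.sq hmod
  have hw1 : ∀ w : List (Fin d), f ((w.map ρ).prod F0) =
      c + M.r ((w.map M.π).prod M.a0) • ((w.map fun j : Fin d => g j).prod y) := by
    intro w
    have := hw w
    rw [wa_rho, wa_g, wa_pi] at this
    exact this
  obtain ⟨A', M', hsep, hfin, hπ', hne', hval⟩ := hSEP d A M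
  have hA' : Finite A' := hfin hA
  have hw2 : ∀ w : List (Fin d), f ((w.map ρ).prod F0) =
      c + M'.r ((w.map M'.π).prod M'.a0) • ((w.map fun j : Fin d => g j).prod y) := by
    intro w
    rw [hval w]
    exact hw1 w
  obtain ⟨l, hl1, hl2, hl3⟩ := FOI.L.exists_one hd M.π hπ
  have hi1 := MBF.index (by omega) hP hρ hRS hRX hRC hCT hF0 hr M ⟨l, by omega, hl2, hl3⟩ hmod
    hne hw1
  have hi2 := MBF.index (by omega) hP hρ hRS hRX hRC hCT hF0 hr M' ⟨l, by omega, hl2, hπ' l hl3⟩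
    hmod (hne' hne) hw2
  have hidx' : M'.HF.relIndex M'.C = k := by rw [← hi2, hi1, hidx]
  -- the kernel
  have hy : y ≠ 0 := mod_y_ne (by omega) hmod
  have hker : ∀ q ∈ Subgroup.closure (M'.π '' {j | 1 ≤ j.val}), (∀ a, M'.r (q a) = M'.r a) →
      q = 1 := by
    obtain ⟨_, h1, h2, h3, h4, -⟩ := act_data hP f C ρ hρ hF0 hr
    refine hKER d (P ≃o P) {v : P // rk v = 0} ρ ⟨F0, hr⟩ (fun x => f x.1) (E d ≃ₗᵢ[ℝ] E d)
      (fun j : Fin d => g j) (fun h t => c + t • h y) A' M' 1 (bd k - 20) ?_ ?_ ?_ hsep ?_ hsq ?_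
      (by omega) ?_
    · intro v w hvw
      exact Subtype.ext (hF 0 v.1 w.1 (by simpa using v.2) (by simpa using w.2) hvw)
    · intro x
      obtain ⟨γ, hγ⟩ := h4 x
      obtain ⟨w, hw3⟩ := MBF.words ρ h3 γ (by rw [h2]; exact Subgroup.mem_top _)
      exact ⟨w, by rw [hw3, hγ]⟩
    · intro h s t hst
      have h5 : s • h y = t • h y := add_left_cancel hst
      have h6 : h y ≠ 0 := fun e => hy (by simpa using e)
      exact smul_left_injective ℝ h6 h5
    · intro w
      show f ((w.map ρ).prod • (⟨F0, hr⟩ : {v : P // rk v = 0})).1 = _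
      rw [h1]
      exact hw2 w
    · intro i j hi hil hj
      have h5 := (hBRD d d 1 ⊤ y g hmod (Or.inl rfl)).2 i.val hi (Or.inl rfl) (by omega)
      apply LinearIsometryEquiv.ext
      intro v
      have h6 := h5 v trivial
      have h7 : g (j : ℕ) = g (i.val + 1) := by rw [hj]
      rw [h7]
      exact h6
    · intro j hj
      exact hπ' j (hπ j (by omega))
  -- the stabilizer
  have hfix : ∀ q ∈ Subgroup.closure (M'.π '' {j | 1 ≤ j.val}), q M'.a0 = M'.a0 := by
    intro q hq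
    refine Subgroup.closure_induction (p := fun x _ => x M'.a0 = M'.a0) ?_ ?_ ?_ ?_ hq
    · rintro x ⟨j, hj, rfl⟩
      exact M'.fix j hj
    · rfl
    · intro a b _ _ ha hb
      rw [Equiv.Perm.mul_apply, hb, ha]
    · intro a _ ha
      rw [Equiv.Perm.inv_eq_iff_eq, ha]
  have hbot : (Subgroup.closure (M'.π '' {j | 1 ≤ j.val}) ⊓ M'.HF : Subgroup (Equiv.Perm A')) =
      ⊥ := by
    rw [eq_bot_iff]
    intro q hq
    rw [Subgroup.mem_bot]
    rcases (mem_HF M' q).1 hq.2 with h | h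
    · exact hker q hq.1 h
    · exfalso
      have h5 := h M'.a0
      rw [hfix q hq.1] at h5
      exact hne' hne M'.a0 (by linarith)
  have hcard := hCNT (Equiv.Perm A') (Subgroup.closure (M'.π '' {j | 1 ≤ j.val})) M'.C M'.HF k 1
    (Subgroup.closure_mono (Set.image_subset_range _ _)) hidx' (by omega)
    (by rw [hbot]; infer_instance) (by rw [hbot]; simp)
  refine ⟨F0, hF0, hr, c, fun w => M'.r (wa (fun j => M'.π j) w M'.a0) • wa (fun j => g j) w y,
    ⟨y, g, A', M', hA', ?_, hmod, hne' hne, hidx', fun w => rfl⟩, fun w => ?_⟩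
  · intro j hj
    by_contra hj1
    have h5 := hCHN d A' M' 1 le_rfl hcard.1 j (by omega) hj1
    have h6 : 2 ^ (j.val - 1 + 1) ≤ k := by
      refine h5.trans ?_
      simpa using hcard.2
    have h7 : j.val - 1 + 1 = j.val := by omega
    rw [h7] at h6
    have h8 := Nat.le_log_of_pow_le (b := 2) (by norm_num) h6
    omega
  · rw [hw2]
    show _ = c + M'.r (wa (fun j => M'.π j) w M'.a0) • wa (fun j => g j) w y
    rw [wa_pi, wa_g]

end

end FOX
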