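import Pool.Agent.FOX.Stmts
import Pool.Agent.FOL.UI
import Pool.Agent.FOI.CTI

/-!
# Module MBI: the number of nontrivial permutations of the datum, the first infinite kind
-/

namespace FOX

open Lib_helper64.FO FO2 FOK FOI
open FOL (bd)
open scoped RealInnerProductSpace

noncomputable section

namespace MBI

theorem sgsg (s : ℤˣ) : sg s * sg s = 1 := by
  rcases Int.units_eq_one_or s with rfl | rfl <;> simp [sg]

theorem bI_inv {d : ℕ} (s0 : ℤˣ) (g : ℕ → (E d ≃ₗᵢ[ℝ] E d)) (z : E d)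
    (hg : ∀ j, j < d → ∀ v, g j (g j v) = v) (j : Fin d) :
    Function.Involutive (bI s0 g z j) := by
  intro v
  unfold bI
  by_cases h : j.val = 0
  · have h0 : 0 < d := by
      have := j.isLt
      omega
    simp only [h, if_true, abt, add_sub_cancel_left, map_smul, smul_smul, sgsg, one_smul,
      hg 0 h0]
    abel
  · simp only [h, if_false, map_smul, smul_smul, sgsg, one_smul, hg j j.isLt]

/-- the pairs of an affine map and its linear model -/
def om {d : ℕ} (s0 : ℤˣ) (g : ℕ → (E d ≃ₗᵢ[ℝ] E d)) (z : E d)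
    (hg : ∀ j, j < d → ∀ v, g j (g j v) = v) (j : Fin d) :
    Equiv.Perm (E d) × (E d ≃ₗᵢ[ℝ] E d) :=
  ((bI_inv s0 g z hg j).toPerm, g j)

theorem om_fst {d : ℕ} (s0 : ℤˣ) (g : ℕ → (E d ≃ₗᵢ[ℝ] E d)) (z : E d)
    (hg : ∀ j, j < d → ∀ v, g j (g j v) = v) (w : List (Fin d)) (v : E d) :
    (w.map (om s0 g z hg)).prod.1 v = wa (bI s0 g z) w v := by
  induction w with
  | nil => rfl
  | cons j w ih =>
    rw [List.map_cons, List.prod_cons, wa_cons, ← ih]
    rfl

theorem om_snd {d : ℕ} (s0 : ℤˣ) (g : ℕ → (E d ≃ₗᵢ[ℝ] E d)) (z : E d)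
    (hg : ∀ j, j < d → ∀ v, g j (g j v) = v) (w : List (Fin d)) (v : E d) :
    (w.map (om s0 g z hg)).prod.2 v = wa (fun j : Fin d => g j) w v := by
  induction w with
  | nil => rfl
  | cons j w ih =>
    rw [List.map_cons, List.prod_cons, wa_cons, ← ih]
    rfl

theorem om_sq {d : ℕ} (s0 : ℤˣ) (g : ℕ → (E d ≃ₗᵢ[ℝ] E d)) (z : E d)
    (hg : ∀ j, j < d → ∀ v, g j (g j v) = v) (j : Fin d) :
    om s0 g z hg j * om s0 g z hg j = 1 := by
  refine Prod.ext ?_ ?_
  · ext1 v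
    exact bI_inv s0 g z hg j v
  · ext1 v
    exact hg j j.isLt v

theorem om_braid {d : ℕ} (s0 : ℤˣ) (g : ℕ → (E d ≃ₗᵢ[ℝ] E d)) (z : E d)
    (hg : ∀ j, j < d → ∀ v, g j (g j v) = v) (i j : Fin d) (hi : 2 ≤ i.val)
    (hj : j.val = i.val + 1)
    (hb : ∀ v, g i (g j (g i (g j (g i (g j v))))) = v) :
    (om s0 g z hg i * om s0 g z hg j) ^ 3 = 1 := by
  have hbi : ∀ v, bI s0 g z i v = g i v := by
    intro v
    have h1 : i.val ≠ 0 := by omega
    have h2 : i.val ≠ 1 := by omega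
    simp [bI, h1, sgI, h2, sg]
  have hbj : ∀ v, bI s0 g z j v = g j v := by
    intro v
    have h1 : j.val ≠ 0 := by omega
    have h2 : j.val ≠ 1 := by omega
    simp [bI, h1, sgI, h2, sg]
  refine Prod.ext ?_ ?_
  · ext1 v
    change bI s0 g z i (bI s0 g z j (bI s0 g z i (bI s0 g z j (bI s0 g z i (bI s0 g z j v))))) = v
    rw [hbj, hbi, hbj, hbi, hbj, hbi]
    exact hb v
  · ext1 v
    exact hb v

/-- the intersection with `HI` -/
theorem card_le {d k : ℕ} (hCNT : S_CNT) (hk : k ≠ 0) {A : Type} (M : Datum d A) (s0 : ℤˣ)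
    (hidx : M.HI.relIndex (M.CI s0) = k)
    (hker : ∀ c ∈ Subgroup.closure (M.π '' {j | 2 ≤ j.val}), (∀ a, M.r (c a) = M.r a) → c = 1) :
    Finite (Subgroup.closure (M.π '' {j : Fin d | 2 ≤ j.val})) ∧
      Nat.card (Subgroup.closure (M.π '' {j : Fin d | 2 ≤ j.val})) ≤ k := by
  set L := Subgroup.closure (M.π '' {j : Fin d | 2 ≤ j.val}) with hL
  set φ : Equiv.Perm A →* Equiv.Perm A × ℤˣ := MonoidHom.inl _ _ with hφ
  have hinj : Function.Injective φ := fun a b h => congrArg Prod.fst h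
  have h1 : L.map φ ≤ M.CI s0 := by
    rw [hL, MonoidHom.map_closure, Subgroup.closure_le]
    rintro _ ⟨_, ⟨j, hj, rfl⟩, rfl⟩
    refine Subgroup.subset_closure ⟨j, ?_⟩
    have h2 : 2 ≤ j.val := hj
    have h3 : j.val ≠ 0 := by omega
    have h4 : j.val ≠ 1 := by omega
    refine Prod.ext rfl ?_
    show sgI s0 j = 1
    rw [sgI, if_neg h3, if_neg h4]
  have h2 : L.map φ ⊓ M.HI = ⊥ := by
    rw [eq_bot_iff]
    rintro x ⟨⟨c, hc, rfl⟩, hx⟩
    rw [Subgroup.mem_bot]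
    have h3 : c = 1 := by
      refine hker c hc fun a => ?_
      have h4 : M.r (c a) = sg 1 * M.r a := hx a
      rw [h4]
      simp [sg]
    rw [h3]
    rfl
  have h3 : Finite (L.map φ ⊓ M.HI : Subgroup (Equiv.Perm A × ℤˣ)) := by
    rw [h2]
    infer_instance
  have h4 : Nat.card (L.map φ ⊓ M.HI : Subgroup (Equiv.Perm A × ℤˣ)) ≤ 1 := by
    rw [h2]
    simp
  obtain ⟨h5, h6⟩ := hCNT _ (L.map φ) (M.CI s0) M.HI k 1 h1 hidx hk h3 h4
  have e := (L.equivMapOfInjective φ hinj).toEquiv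
  refine ⟨Finite.of_equiv _ e.symm, ?_⟩
  rw [Nat.card_congr e]
  omega

end MBI

open MBI in
theorem t_MBI : M_MBI := by
  intro hCT hSEP hKER hCNT hCHN hBRD k d hk hd P _ rk hP f C ρ hρ hf hK
  have hidx0 := FOI.L.index_of_kindI hCT hd hP hρ hK
  obtain ⟨F0, hF0, hr, c, y, l, s0, ε, g, A, M, hA, hπ, hε, hmod, hl, hidx, hw⟩ := hK
  have hbk := FOI.L.bd_ge k
  obtain ⟨A', M', hsep, hfin, hone, -, hr'⟩ := hSEP d A M
  have hA' : Finite A' := hfin hA
  have hπ' : ∀ j : Fin d, bd k ≤ j.val + 20 → M'.π j = 1 := fun j hj => hone j (hπ j hj)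
  obtain ⟨hbr1, hbr2⟩ := hBRD d d ε ⊤ y g hmod hε
  have hg : ∀ j, j < d → ∀ v, g j (g j v) = v := fun j hj v => (hbr1 j hj v trivial).2
  have hw' : ∀ w : List (Fin d), f ((w.map ρ).prod F0) =
      c + (wa (bI s0 g (l • y)) w 0 +
        M'.r ((w.map M'.π).prod M'.a0) • wa (fun j : Fin d => g j) w y) := by
    intro w
    have := hw w
    rw [wa_rho, wa_pi, ← hr'] at this
    rw [this, add_assoc]
  -- the index of the new datum
  have hidx' : M'.HI.relIndex (M'.CI s0) = k := by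
    have hl' : ∃ l : Fin d, 2 ≤ l.val ∧ l.val + 2 ≤ d ∧ M'.π l = 1 := by
      obtain ⟨l, h1, h2, h3⟩ := FOI.L.exists_one hd M'.π hπ'
      exact ⟨l, by omega, h2, h3⟩
    rw [← hidx0]
    symm
    refine countI hCT (by omega) hP f C ρ hρ hF0 hr c y (l • (y - sg s0 • g 0 y)) s0 ε g A' M' hε
      hmod (smul_ne_zero hl (mod_ne (by omega) hmod s0)) ?_ hl' fun w => ?_
    · rw [map_smul, map_sub, map_smul, mod_gg (by omega) hmod]
      have : sg s0 • l • (g 0 y - sg s0 • y) = l • (sg s0 • g 0 y - (sg s0 * sg s0) • y) := by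
        module
      rw [this, sgsg, one_smul]
      module
    · rw [hw' w, wa_g, wa_bI, add_assoc]
  -- the kernel
  obtain ⟨_, hs, hgen, hsq, htr, -⟩ := act_data hP f C ρ hρ hF0 hr
  have hy : y ≠ 0 := mod_y_ne (by omega) hmod
  have hker : ∀ c ∈ Subgroup.closure (M'.π '' {j | 2 ≤ j.val}), (∀ a, M'.r (c a) = M'.r a) →
      c = 1 := by
    refine hKER d (P ≃o P) {v : P // rk v = 0} ρ ⟨F0, hr⟩ (fun x => f x.1)
      (Equiv.Perm (E d) × (E d ≃ₗᵢ[ℝ] E d)) (om s0 g (l • y) hg)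
      (fun x t => c + (x.1 0 + t • x.2 y)) A' M' 2 (bd k - 20) ?_ ?_ ?_ hsep ?_
      (om_sq s0 g (l • y) hg) ?_ (by omega) ?_
    · rintro ⟨u, hu⟩ ⟨v, hv⟩ huv
      exact Subtype.ext (hf 0 u v (by simpa using hu) (by simpa using hv) huv)
    · intro x
      obtain ⟨γ, hγ⟩ := htr x
      obtain ⟨w, hw⟩ := CTI.exists_word hsq (x := γ) (by rw [hgen]; trivial)
      exact ⟨w, by rw [hw, hγ]⟩
    · intro x t t' h
      simp only at h
      have h1 := add_left_cancel (add_left_cancel h)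
      have h2 : x.2 y ≠ 0 := by
        intro h0
        exact hy (x.2.injective (by rw [h0, map_zero]))
      exact smul_left_injective ℝ h2 h1
    · intro w
      rw [word_smul hs, om_fst, om_snd]
      exact hw' w
    · intro i j hi hil hj
      refine om_braid s0 g (l • y) hg i j hi hj fun v => ?_
      have := hbr2 i (by omega) (Or.inr hi) (by omega) v trivial
      rw [← hj] at this
      exact this
    · intro j hj
      exact hπ' j (by omega)
  obtain ⟨hfinC, hcard⟩ := card_le hCNT (by omega) M' s0 hidx' hker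
  refine ⟨F0, hF0, hr, c, fun w => wa (bI s0 g (l • y)) w 0 +
    M'.r (wa (fun j => M'.π j) w M'.a0) • wa (fun j => g j) w y,
    ⟨y, l, s0, ε, g, A', M', hA', ?_, hε, hmod, hl, hidx', fun w => rfl⟩, fun w => ?_⟩
  · intro j hj
    by_contra hne
    have h1 := hCHN d A' M' 2 (by omega) hfinC j (by omega) hne
    have h2 : 2 ^ (j.val - 2 + 1) ≤ k := h1.trans hcard
    have h3 : j.val - 2 + 1 ≤ Nat.log 2 k := Nat.le_log_of_pow_le (by omega) h2
    omega
  · rw [hw' w]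
    simp only
    rw [wa_pi]

end

end FOX
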