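import Pool.Agent.FOX.Stmts
import Pool.Agent.FOL.UI
import Pool.Agent.FOI.CTI

/-!
# Module MBR: the number of nontrivial permutations of the datum, the second infinite kind
-/

namespace FOX

open Lib_helper64.FO FO2 FOK FOI
open FOL (bd)
open scoped RealInnerProductSpace

noncomputable section

namespace MBR

theorem sgsg (s : ℤˣ) : sg s * sg s = 1 := by
  rcases Int.units_eq_one_or s with rfl | rfl <;> simp [sg]

theorem sref_sref' {d : ℕ} {a : E d} (h : ‖a‖ = 1) (v : E d) : sref a (sref a v) = v := by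
  have h1 : ⟪a, a⟫ = (1 : ℝ) := by rw [real_inner_self_eq_norm_sq, h]; norm_num
  simp only [sref, inner_sub_right, inner_smul_right, h1]
  module

/-- the base point of a model is in the subspace -/
theorem y_mem {D n : ℕ} {ε : ℝ} {I : Submodule ℝ (E D)} {y : E D} {g : ℕ → (E D ≃ₗᵢ[ℝ] E D)}
    (hn : 0 < n) (h : LinModel n ε I y g) : y ∈ I := by
  obtain ⟨-, h | h | h⟩ := h
  · obtain ⟨v, hv, -, rfl, -⟩ := h
    exact hv 0
  · obtain ⟨u, hu, -, rfl, -⟩ := h
    exact Submodule.sum_mem _ fun i _ => hu i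
  · obtain ⟨u, hu, -, hy, -⟩ := h
    rw [hy hn]
    exact hu _

/-- the hypotheses on the maps -/
structure Hyp (d : ℕ) (I : Submodule ℝ (E d)) (b : Bool) (g : ℕ → (E d ≃ₗᵢ[ℝ] E d))
    (y : E d) : Prop where
  mem : y ∈ I
  gg : ∀ j, j < d - 1 → ∀ v ∈ I, g j v ∈ I ∧ g j (g j v) = v
  norm : b = true → ‖y‖ = 1

theorem bR_mem {d : ℕ} {I : Submodule ℝ (E d)} {b : Bool} {g : ℕ → (E d ≃ₗᵢ[ℝ] E d)} {y : E d}
    (h : Hyp d I b g y) (s1 : ℤˣ) (l : ℝ) (j : Fin d) (v : E d) (hv : v ∈ I) :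
    bR b s1 g y (l • y) j v ∈ I := by
  unfold bR
  by_cases h0 : j.val = 0
  · simp only [h0, if_true, abt]
    have h1 : l • y ∈ I := I.smul_mem _ h.mem
    refine I.add_mem h1 ?_
    cases b with
    | true =>
      simp only [if_true, sref]
      exact I.sub_mem (I.sub_mem hv h1) (I.smul_mem _ h.mem)
    | false =>
      simp only [Bool.false_eq_true, if_false]
      exact I.neg_mem (I.sub_mem hv h1)
  · simp only [h0, if_false]
    have := j.isLt
    exact I.smul_mem _ (h.gg (j.val - 1) (by omega) v hv).1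

theorem bR_inv {d : ℕ} {I : Submodule ℝ (E d)} {b : Bool} {g : ℕ → (E d ≃ₗᵢ[ℝ] E d)} {y : E d}
    (h : Hyp d I b g y) (s1 : ℤˣ) (l : ℝ) (j : Fin d) (v : E d) (hv : v ∈ I) :
    bR b s1 g y (l • y) j (bR b s1 g y (l • y) j v) = v := by
  unfold bR
  by_cases h0 : j.val = 0
  · simp only [h0, if_true, abt]
    cases b with
    | true =>
      simp only [if_true, add_sub_cancel_left]
      rw [sref_sref' (h.norm rfl)]
      abel
    | false =>
      simp only [Bool.false_eq_true, if_false]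
      abel
  · simp only [h0, if_false, map_smul]
    have := j.isLt
    rw [(h.gg (j.val - 1) (by omega) v hv).2, smul_smul]
    by_cases h1 : j.val = 1
    · rw [if_pos h1, sgsg, one_smul]
    · rw [if_neg h1, one_mul, one_smul]

/-- the affine maps on the subspace -/
def bRI {d : ℕ} {I : Submodule ℝ (E d)} {b : Bool} {g : ℕ → (E d ≃ₗᵢ[ℝ] E d)} {y : E d}
    (h : Hyp d I b g y) (s1 : ℤˣ) (l : ℝ) (j : Fin d) (v : I) : I :=
  ⟨bR b s1 g y (l • y) j v, bR_mem h s1 l j v v.2⟩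

theorem bRI_inv {d : ℕ} {I : Submodule ℝ (E d)} {b : Bool} {g : ℕ → (E d ≃ₗᵢ[ℝ] E d)} {y : E d}
    (h : Hyp d I b g y) (s1 : ℤˣ) (l : ℝ) (j : Fin d) :
    Function.Involutive (bRI h s1 l j) := fun v => Subtype.ext (bR_inv h s1 l j v v.2)

/-- the permutations of the subspace -/
def om {d : ℕ} {I : Submodule ℝ (E d)} {b : Bool} {g : ℕ → (E d ≃ₗᵢ[ℝ] E d)} {y : E d}
    (h : Hyp d I b g y) (s1 : ℤˣ) (l : ℝ) (j : Fin d) : Equiv.Perm I :=
  (bRI_inv h s1 l j).toPerm

theorem om_word {d : ℕ} {I : Submodule ℝ (E d)} {b : Bool} {g : ℕ → (E d ≃ₗᵢ[ℝ] E d)} {y : E d}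
    (h : Hyp d I b g y) (s1 : ℤˣ) (l : ℝ) (w : List (Fin d)) (v : I) :
    ((w.map (om h s1 l)).prod v : E d) = wa (bR b s1 g y (l • y)) w v := by
  induction w with
  | nil => rfl
  | cons j w ih =>
    rw [List.map_cons, List.prod_cons, wa_cons, ← ih]
    rfl

theorem om_braid {d : ℕ} {I : Submodule ℝ (E d)} {b : Bool} {g : ℕ → (E d ≃ₗᵢ[ℝ] E d)} {y : E d}
    (h : Hyp d I b g y) (s1 : ℤˣ) (l : ℝ) (i j : Fin d) (hi : 2 ≤ i.val)
    (hj : j.val = i.val + 1)
    (hb : ∀ v ∈ I, g (i.val - 1) (g (j.val - 1) (g (i.val - 1) (g (j.val - 1)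
      (g (i.val - 1) (g (j.val - 1) v))))) = v) :
    (om h s1 l i * om h s1 l j) ^ 3 = 1 := by
  have hbi : ∀ v, bR b s1 g y (l • y) i v = g (i.val - 1) v := by
    intro v
    have h1 : i.val ≠ 0 := by omega
    have h2 : i.val ≠ 1 := by omega
    simp [bR, h1, h2]
  have hbj : ∀ v, bR b s1 g y (l • y) j v = g (j.val - 1) v := by
    intro v
    have h1 : j.val ≠ 0 := by omega
    have h2 : j.val ≠ 1 := by omega
    simp [bR, h1, h2]
  ext1 v
  apply Subtype.ext
  change bR b s1 g y (l • y) i (bR b s1 g y (l • y) j (bR b s1 g y (l • y) i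
    (bR b s1 g y (l • y) j (bR b s1 g y (l • y) i (bR b s1 g y (l • y) j v))))) = v
  rw [hbj, hbi, hbj, hbi, hbj, hbi]
  exact hb v v.2

/-- the intersection with `HR` -/
theorem card_le {d k : ℕ} (hCNT : S_CNT) (hk : k ≠ 0) {A : Type} (M : Datum d A)
    (hidx : M.HR.relIndex M.C = k)
    (hker : ∀ c ∈ Subgroup.closure (M.π '' {j | 2 ≤ j.val}), (∀ a, M.r (c a) = M.r a) → c = 1) :
    Finite (Subgroup.closure (M.π '' {j : Fin d | 2 ≤ j.val})) ∧
      Nat.card (Subgroup.closure (M.π '' {j : Fin d | 2 ≤ j.val})) ≤ 2 * k := by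
  set L := Subgroup.closure (M.π '' {j : Fin d | 2 ≤ j.val}) with hL
  have h1 : L ≤ M.C := by
    rw [hL, Datum.C]
    exact Subgroup.closure_mono (Set.image_subset_range _ _)
  have hfix : ∀ c ∈ L, c M.a0 = M.a0 := by
    intro c hc
    have h2 : L ≤ MulAction.stabilizer (Equiv.Perm A) M.a0 := by
      rw [hL, Subgroup.closure_le]
      rintro _ ⟨j, hj, rfl⟩
      have h3 : 2 ≤ j.val := hj
      exact M.fix j (by omega)
    exact h2 hc
  -- an element with the sign `1` is `1`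
  have hp : ∀ c ∈ L, ∀ t : ℝ, (∀ a, M.r (c a) = M.r a + t) → c = 1 := by
    intro c hc t ht
    have h2 := ht M.a0
    rw [hfix c hc] at h2
    have h3 : t = 0 := by linarith
    refine hker c hc fun a => ?_
    rw [ht a, h3, add_zero]
  -- the product of two elements with the sign `-1` is `1`
  have hm : ∀ c ∈ L, ∀ c' ∈ L, ∀ t t' : ℝ, (∀ a, M.r (c a) = -M.r a + t) →
      (∀ a, M.r (c' a) = -M.r a + t') → c * c' = 1 := by
    intro c hc c' hc' t t' ht ht'
    refine hp _ (mul_mem hc hc') (t - t') fun a => ?_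
    rw [Equiv.Perm.mul_apply, ht, ht']
    ring
  have hmain : ∀ c ∈ L ⊓ M.HR, c ≠ 1 → ∀ c' ∈ L ⊓ M.HR, c' = 1 ∨ c' = c := by
    have hneg : ∀ c ∈ L ⊓ M.HR, c ≠ 1 → ∃ t : ℝ, ∀ a, M.r (c a) = -M.r a + t := by
      rintro c ⟨hc, s, t, hs, ht⟩ hne
      rcases hs with rfl | rfl
      · exact absurd (hp c hc t fun a => by rw [ht a, one_mul]) hne
      · exact ⟨t, fun a => by rw [ht a, neg_one_mul]⟩
    intro c hc hne c' hc'
    by_cases hne' : c' = 1
    · exact Or.inl hne'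
    · right
      obtain ⟨t, ht⟩ := hneg c hc hne
      obtain ⟨t', ht'⟩ := hneg c' hc' hne'
      have e1 := hm c hc.1 c hc.1 t t ht ht
      have e2 := hm c hc.1 c' hc'.1 t t' ht ht'
      exact mul_left_cancel (e2.trans e1.symm)
  have hsub : ∃ c0 : Equiv.Perm A, ((L ⊓ M.HR : Subgroup (Equiv.Perm A)) :
      Set (Equiv.Perm A)) ⊆ {1, c0} := by
    by_cases h : ∃ c ∈ L ⊓ M.HR, c ≠ 1
    · obtain ⟨c, hc, hne⟩ := h
      exact ⟨c, fun c' hc' => hmain c hc hne c' hc'⟩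
    · push Not at h
      exact ⟨1, fun c' hc' => Or.inl (h c' hc')⟩
  obtain ⟨c0, hc0⟩ := hsub
  have hfs : ({1, c0} : Set (Equiv.Perm A)).Finite := by
    exact Set.Finite.insert _ (Set.finite_singleton _)
  have h3 : Finite (L ⊓ M.HR : Subgroup (Equiv.Perm A)) := (hfs.subset hc0).to_subtype
  have h4 : Nat.card (L ⊓ M.HR : Subgroup (Equiv.Perm A)) ≤ 2 := by
    have e1 : Nat.card (L ⊓ M.HR : Subgroup (Equiv.Perm A)) =
        Set.ncard ((L ⊓ M.HR : Subgroup (Equiv.Perm A)) : Set (Equiv.Perm A)) := rfl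
    rw [e1]
    refine (Set.ncard_le_ncard hc0 hfs).trans ?_
    refine (Set.ncard_insert_le _ _).trans ?_
    rw [Set.ncard_singleton]
  exact hCNT _ L M.C M.HR k 2 h1 hidx hk h3 h4

end MBR

open MBR in
theorem t_MBR : M_MBR := by
  intro hCT hSEP hKER hCNT hCHN hBRD k d hk hd P _ rk hP f C ρ hρ hf hK
  have hidx0 := FOI.L.index_of_kindR hCT hd hP hρ hK
  obtain ⟨F0, hF0, hr, c, e0, y, l, b, s1, g, A, M, hπ, he, hmod, hb, hl, hidx, hw⟩ := hK
  have hbk := FOI.L.bd_ge k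
  obtain ⟨A', M', hsep, -, hone, -, hr'⟩ := hSEP d A M
  have hπ' : ∀ j : Fin d, bd k ≤ j.val + 20 → M'.π j = 1 := fun j hj => hone j (hπ j hj)
  obtain ⟨hbr1, hbr2⟩ := hBRD d (d - 1) 1 (ℝ ∙ e0)ᗮ y g hmod (Or.inl rfl)
  have hH : Hyp d (ℝ ∙ e0)ᗮ b g y :=
    ⟨y_mem (by omega) hmod, hbr1, fun h => cro_norm (by omega) (hb h)⟩
  have hw' : ∀ w : List (Fin d), f ((w.map ρ).prod F0) =
      c + (wa (bR b s1 g y (l • y)) w 0 + M'.r ((w.map M'.π).prod M'.a0) • e0) := by
    intro w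
    have := hw w
    rw [wa_rho, wa_pi, ← hr'] at this
    rw [this, add_assoc]
  -- the index of the new datum
  have hidx' : M'.HR.relIndex M'.C = k := by
    have hl' : ∃ l : Fin d, 3 ≤ l.val ∧ l.val + 2 ≤ d ∧ M'.π l = 1 :=
      FOI.L.exists_one hd M'.π hπ'
    rw [← hidx0]
    symm
    refine countR hCT (by omega) hP f C ρ hρ hF0 hr c e0 y ((2 * l) • y) b s1 g A' M' he hmod hb
      (smul_ne_zero (mul_ne_zero two_ne_zero hl) (mod_y_ne (by omega) hmod))
      (Submodule.smul_mem _ _ (Submodule.mem_span_singleton_self y)) hl' fun w => ?_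
    rw [hw' w, wa_bR b s1 g l y fun h => cro_norm (by omega) (hb h), add_assoc]
  -- the kernel
  obtain ⟨_, hs, hgen, hsq, htr, -⟩ := act_data hP f C ρ hρ hF0 hr
  have he0 : e0 ≠ 0 := by
    rintro rfl
    simp at he
  have hker : ∀ c ∈ Subgroup.closure (M'.π '' {j | 2 ≤ j.val}), (∀ a, M'.r (c a) = M'.r a) →
      c = 1 := by
    refine hKER d (P ≃o P) {v : P // rk v = 0} ρ ⟨F0, hr⟩ (fun x => f x.1)
      (Equiv.Perm ((ℝ ∙ e0)ᗮ : Submodule ℝ (E d))) (om hH s1 l)
      (fun x t => c + ((x 0 : ((ℝ ∙ e0)ᗮ : Submodule ℝ (E d))) + t • e0)) A' M' 2 (bd k - 20)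
      ?_ ?_ ?_ hsep ?_ ?_ ?_ (by omega) ?_
    · rintro ⟨u, hu⟩ ⟨v, hv⟩ huv
      exact Subtype.ext (hf 0 u v (by simpa using hu) (by simpa using hv) huv)
    · intro x
      obtain ⟨γ, hγ⟩ := htr x
      obtain ⟨w, hw⟩ := CTI.exists_word hsq (x := γ) (by rw [hgen]; trivial)
      exact ⟨w, by rw [hw, hγ]⟩
    · intro x t t' h
      simp only at h
      exact smul_left_injective ℝ he0 (add_left_cancel (add_left_cancel h))
    · intro w
      rw [word_smul hs, om_word]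
      exact hw' w
    · intro j
      ext1 v
      exact bRI_inv hH s1 l j v
    · intro i j hi hil hj
      refine om_braid hH s1 l i j hi hj fun v hv => ?_
      have := hbr2 (i.val - 1) (by omega) (Or.inl rfl) (by omega) v hv
      have e : i.val - 1 + 1 = j.val - 1 := by omega
      rw [e] at this
      exact this
    · intro j hj
      exact hπ' j (by omega)
  obtain ⟨hfinC, hcard⟩ := card_le hCNT (by omega) M' hidx' hker
  refine ⟨F0, hF0, hr, c, fun w => wa (bR b s1 g y (l • y)) w 0 +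
    M'.r (wa (fun j => M'.π j) w M'.a0) • e0,
    ⟨e0, y, l, b, s1, g, A', M', ?_, he, hmod, hb, hl, hidx', fun w => rfl⟩, fun w => ?_⟩
  · intro j hj
    by_contra hne
    have h1 := hCHN d A' M' 2 (by omega) hfinC j (by omega) hne
    have h2 : 2 ^ (j.val - 2 + 1) ≤ 2 * k := h1.trans hcard
    have h3 : 2 ^ (j.val - 2) ≤ k := by
      rw [pow_succ] at h2
      omega
    have h4 : j.val - 2 ≤ Nat.log 2 k := Nat.le_log_of_pow_le (by omega) h3
    omega
  · rw [hw' w]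
    simp only
    rw [wa_pi]

end

end FOX
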