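import Pool.Agent.FOX.Stmts

/-!
Module PFX: the base point is fixed by the generators `j ≥ 1`, in all kinds.
-/

set_option autoImplicit false

namespace FOX

namespace PFXx

open Lib_helper64.FO FO2 FOI

/-- The base vertex of a linear model is fixed by the generators `g j`, `j ≥ 1`. -/
lemma fix_base {n D : ℕ} {ε : ℝ} {I : Submodule ℝ (E D)} {y : E D} {g : ℕ → (E D ≃ₗᵢ[ℝ] E D)}
    (h : LinModel n ε I y g) {j : ℕ} (h1 : j ≠ 0) (hj : j < n) : g j y = y := by
  rcases h.2 with ⟨v, _, _, hy, hg⟩ | ⟨u, _, _, hy, hg⟩ | ⟨u, _, _, hy, hg⟩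
  · have h2 := hg ⟨j, hj⟩ 0
    rw [hy, h2, Equiv.swap_apply_of_ne_of_ne]
    · intro h3
      have h4 := congrArg Fin.val h3
      simp at h4
      omega
    · intro h3
      have h4 := congrArg Fin.val h3
      simp at h4
  · rw [hy, map_sum]
    have h2 : ∀ i : Fin n, g j (u i) = u (Equiv.swap (prd ⟨j, hj⟩) ⟨j, hj⟩ i) := by
      intro i
      have h3 := hg ⟨j, hj⟩ i
      rw [if_neg h1] at h3
      exact h3
    rw [Finset.sum_congr rfl fun i _ => h2 i]
    exact Equiv.sum_comp (Equiv.swap (prd ⟨j, hj⟩) ⟨j, hj⟩) u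
  · have hn : 0 < n := by omega
    rw [hy hn]
    have h2 := hg ⟨j, hj⟩ ⟨0, hn⟩
    rw [h2]
    have h0 : (⟨0, hn⟩ : Fin n) ≠ ⟨j, hj⟩ := by
      intro h3
      exact h1 (congrArg Fin.val h3).symm
    split_ifs with h3 h4
    · exact absurd h4.2 (by simp)
    · rw [Equiv.swap_apply_of_ne_of_ne h0]
      intro h5
      have h6 := congrArg Fin.val h5
      simp at h6
    · rfl

end PFXx

open Lib_helper64.FO FO2 FOI

theorem t_PFX : S_PFX := by
  intro k d p _ hp j hj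
  have hj1 : 1 ≤ j.val := Nat.one_le_iff_ne_zero.2 hj
  rcases hp with ⟨y, g, A, M, _, _, hM, _, _, hw⟩ |
      ⟨y, l, s0, ε, g, A, M, _, _, _, hM, _, _, hw⟩ |
      ⟨e0, y, l, b, s1, g, A, M, _, _, hM, _, _, _, hw⟩
  · rw [hw, hw]
    simp only [wa, List.foldr]
    rw [M.fix j hj1, PFXx.fix_base hM hj j.isLt]
  · rw [hw, hw]
    simp only [wa, List.foldr]
    rw [M.fix j hj1, PFXx.fix_base hM hj j.isLt]
    simp [bI, hj]
  · rw [hw, hw]
    simp only [wa, List.foldr]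
    rw [M.fix j hj1]
    simp [bR, hj]

end FOX
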