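import Pool.Agent.FOX.Stmts

/-!
# Module REG: transport of regular polytopes along isomorphisms of ranked posets
-/

namespace FOX

open Lib_helper64.FO FO2 FOI

theorem t_REG : S_REG := by
  intro d P Q _ _ rk rk' φ hrk h
  refine ⟨?_, ?_, ?_, ?_, ?_, ?_, ?_⟩
  · obtain ⟨b, hb, hb'⟩ := h.bot
    refine ⟨φ.symm b, fun x => ?_, ?_⟩
    · rw [φ.symm_apply_le]
      exact hb _
    · rw [← hrk, φ.apply_symm_apply, hb']
  · obtain ⟨t, ht, ht'⟩ := h.top
    refine ⟨φ.symm t, fun x => ?_, ?_⟩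
    · rw [φ.le_symm_apply]
      exact ht _
    · rw [← hrk, φ.apply_symm_apply, ht']
  · intro x y hxy
    rw [← hrk x, ← hrk y]
    exact h.strict _ _ (φ.lt_iff_lt.2 hxy)
  · intro C i hi hi'
    obtain ⟨x, hx, hxi⟩ := h.flags (Flag.map φ C) i hi hi'
    rw [← SetLike.mem_coe, Flag.coe_map] at hx
    obtain ⟨c, hc, rfl⟩ := hx
    exact ⟨c, hc, by rw [← hrk]; exact hxi⟩
  · intro x y hxy hr
    have h1 := h.diamond (φ x) (φ y) (φ.lt_iff_lt.2 hxy) (by rw [hrk, hrk]; exact hr)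
    rw [← h1]
    refine Nat.card_congr (φ.toEquiv.subtypeEquiv fun z => ?_)
    show x < z ∧ z < y ↔ φ x < φ z ∧ φ z < φ y
    rw [φ.lt_iff_lt, φ.lt_iff_lt]
  · intro x y hxy hr z w hz hz' hw hw'
    have h1 := h.connected (φ x) (φ y) (φ.lt_iff_lt.2 hxy) (by rw [hrk, hrk]; exact hr) (φ z) (φ w)
      (φ.lt_iff_lt.2 hz) (φ.lt_iff_lt.2 hz') (φ.lt_iff_lt.2 hw) (φ.lt_iff_lt.2 hw')
    have h2 := Relation.ReflTransGen.lift (p := fun a b => x < b ∧ b < y ∧ (a ≤ b ∨ b ≤ a))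
      φ.symm (fun a b hab => ?_) _ _ h1
    · rw [Function.onFun, φ.symm_apply_apply, φ.symm_apply_apply] at h2
      exact h2
    · obtain ⟨h3, h4, h5⟩ := hab
      refine ⟨?_, ?_, ?_⟩
      · rw [← φ.lt_iff_lt, φ.apply_symm_apply]
        exact h3
      · rw [← φ.lt_iff_lt, φ.apply_symm_apply]
        exact h4
      · rw [φ.symm.le_iff_le, φ.symm.le_iff_le]
        exact h5
  · intro C D
    obtain ⟨γ, hγ⟩ := h.regular (Flag.map φ C) (Flag.map φ D)
    refine ⟨(φ.trans γ).trans φ.symm, ?_⟩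
    have h1 : (γ • (Flag.map φ C) : Flag Q) = Flag.map φ D := hγ
    have h2 : ((γ • (Flag.map φ C) : Flag Q) : Set Q) = (Flag.map φ D : Set Q) := by rw [h1]
    have h3 : γ '' (φ '' (C : Set P)) = φ '' (D : Set P) := h2
    apply SetLike.coe_injective
    show ((φ.trans γ).trans φ.symm) '' (C : Set P) = (D : Set P)
    have h4 : ((φ.trans γ).trans φ.symm) '' (C : Set P) = φ.symm '' (γ '' (φ '' (C : Set P))) := by
      rw [Set.image_image, Set.image_image]
      rfl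
    rw [h4, h3, Set.image_image]
    simp

end FOX
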