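import Pool.Agent.FOX.Stmts

/-!
# Module SEP: the quotient of a datum by the relation of `Sep`
-/

set_option autoImplicit false

namespace FOX

open Lib_helper64.FO FO2 FOK FOI

namespace SEP

variable {d : ℕ} {A : Type} (M : Datum d A)

/-- the relation of `Sep` -/
def st : Setoid A where
  r a b := ∀ w : List (Fin d), M.r ((w.map M.π).prod a) = M.r ((w.map M.π).prod b)
  iseqv := ⟨fun _ _ => rfl, fun h w => (h w).symm, fun h h' w => (h w).trans (h' w)⟩

/-- the class of a point -/
def cl (a : A) : Quotient (st M) := Quotient.mk (st M) a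

theorem cl_surj (q : Quotient (st M)) : ∃ a, cl M a = q := Quotient.exists_rep q

/-- the map induced by `π j` -/
def mp (j : Fin d) : Quotient (st M) → Quotient (st M) := Quotient.map (M.π j) (by
  intro a b h w
  have h1 := h (w ++ [j])
  simpa [List.map_append, List.prod_append] using h1)

theorem mp_cl (j : Fin d) (a : A) : mp M j (cl M a) = cl M (M.π j a) := rfl

theorem mp_mp (j : Fin d) (q : Quotient (st M)) : mp M j (mp M j q) = q := by
  obtain ⟨a, rfl⟩ := cl_surj M q
  rw [mp_cl, mp_cl]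
  have h := congrArg (fun f : Equiv.Perm A => f a) (M.sq j)
  have h1 : M.π j (M.π j a) = a := h
  rw [h1]

/-- the permutation induced by `π j` -/
def pr (j : Fin d) : Equiv.Perm (Quotient (st M)) := ⟨mp M j, mp M j, mp_mp M j, mp_mp M j⟩

theorem pr_cl (j : Fin d) (a : A) : pr M j (cl M a) = cl M (M.π j a) := rfl

theorem prod_cl (w : List (Fin d)) (a : A) :
    (w.map (pr M)).prod (cl M a) = cl M ((w.map M.π).prod a) := by
  induction w with
  | nil => rfl
  | cons j w ih =>
    rw [List.map_cons, List.prod_cons, List.map_cons, List.prod_cons, Equiv.Perm.mul_apply,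
      Equiv.Perm.mul_apply, ih, pr_cl]

theorem lift_mem (q : Equiv.Perm A) (hq : q ∈ Subgroup.closure (Set.range M.π)) :
    ∃ q' ∈ Subgroup.closure (Set.range (pr M)), ∀ a, q' (cl M a) = cl M (q a) := by
  induction hq using Subgroup.closure_induction with
  | mem x hx =>
    obtain ⟨j, rfl⟩ := hx
    exact ⟨pr M j, Subgroup.subset_closure ⟨j, rfl⟩, fun a => pr_cl M j a⟩
  | one => exact ⟨1, Subgroup.one_mem _, fun a => rfl⟩
  | mul x y _ _ hx hy =>
    obtain ⟨x', hx1, hx2⟩ := hx
    obtain ⟨y', hy1, hy2⟩ := hy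
    refine ⟨x' * y', Subgroup.mul_mem _ hx1 hy1, fun a => ?_⟩
    rw [Equiv.Perm.mul_apply, Equiv.Perm.mul_apply, hy2, hx2]
  | inv x _ hx =>
    obtain ⟨x', hx1, hx2⟩ := hx
    refine ⟨x'⁻¹, Subgroup.inv_mem _ hx1, fun a => ?_⟩
    rw [Equiv.Perm.inv_eq_iff_eq, hx2]
    simp

/-- the function induced by `r` -/
def rr : Quotient (st M) → ℝ := Quotient.lift M.r (fun a b h => by simpa using h [])

theorem rr_cl (a : A) : rr M (cl M a) = M.r a := rfl

/-- the quotient datum -/
def dat : Datum d (Quotient (st M)) where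
  π := pr M
  a0 := cl M M.a0
  r := rr M
  sq j := by
    refine Equiv.ext fun q => ?_
    obtain ⟨a, rfl⟩ := cl_surj M q
    exact mp_mp M j (cl M a)
  comm i j hij := by
    refine Equiv.ext fun q => ?_
    obtain ⟨a, rfl⟩ := cl_surj M q
    rw [Equiv.Perm.mul_apply, Equiv.Perm.mul_apply, pr_cl, pr_cl, pr_cl, pr_cl]
    have h := congrArg (fun f : Equiv.Perm A => f a) (M.comm i j hij)
    have h1 : M.π i (M.π j a) = M.π j (M.π i a) := h
    rw [h1]
  fix j hj := by
    rw [pr_cl, M.fix j hj]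
  trans q := by
    obtain ⟨a, rfl⟩ := cl_surj M q
    obtain ⟨x, hx, hxa⟩ := M.trans a
    obtain ⟨x', hx1, hx2⟩ := lift_mem M x hx
    exact ⟨x', hx1, by rw [hx2, hxa]⟩

end SEP

open SEP in
theorem t_SEP : S_SEP := by
  intro d A M
  refine ⟨Quotient (st M), dat M, ?_, ?_, ?_, ?_, ?_⟩
  · intro a b h
    obtain ⟨a, rfl⟩ := cl_surj M a
    obtain ⟨b, rfl⟩ := cl_surj M b
    refine Quotient.sound fun w => ?_
    have h1 := h w
    have h2 : ∀ c : A, (dat M).r ((w.map (dat M).π).prod (cl M c)) =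
        M.r ((w.map M.π).prod c) := fun c => by
      change rr M ((w.map (pr M)).prod (cl M c)) = _
      rw [prod_cl, rr_cl]
    rw [h2, h2] at h1
    exact h1
  · intro hA
    exact Finite.of_surjective (cl M) (cl_surj M)
  · intro j hj
    refine Equiv.ext fun q => ?_
    obtain ⟨a, rfl⟩ := cl_surj M q
    change pr M j (cl M a) = cl M a
    rw [pr_cl, hj]
    rfl
  · intro h q
    obtain ⟨a, rfl⟩ := cl_surj M q
    exact h a
  · intro w
    change rr M ((w.map (pr M)).prod (cl M M.a0)) = _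
    rw [prod_cl, rr_cl]

end FOX
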