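import Pool.Agent.FOX.Stmts
import Pool.Agent.FOI.AOf

/-!
# The permutations of the points of a faithful realization
-/

namespace FOX

open Lib_helper64.FO FO2 FOK FOI

noncomputable section

namespace STRaux

variable {d : ℕ} {P : Type} [PartialOrder P] {rk : P → ℤ}

theorem exG_val {Γ : Type} [Group Γ] (ρ : Fin d → Γ) (j : Fin d) : exG ρ j.val = ρ j := by
  unfold exG
  rw [dif_pos j.isLt]

/-- every element of the group generated by the involutions is a word -/
theorem word_of_gpar {Γ : Type} [Group Γ] (ρ : Fin d → Γ) (hsq : ∀ j, ρ j * ρ j = 1) (γ : Γ)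
    (hγ : γ ∈ Subgroup.closure (exG ρ '' Set.univ)) : ∃ w : List (Fin d), (w.map ρ).prod = γ := by
  induction hγ using Subgroup.closure_induction with
  | mem x hx =>
    obtain ⟨i, -, rfl⟩ := hx
    by_cases h : i < d
    · refine ⟨[⟨i, h⟩], ?_⟩
      simp [exG, h]
    · exact ⟨[], by simp [exG, h]⟩
  | one => exact ⟨[], by simp⟩
  | mul x y _ _ hx hy =>
    obtain ⟨w, rfl⟩ := hx
    obtain ⟨w', rfl⟩ := hy
    exact ⟨w ++ w', by simp⟩
  | inv x _ hx =>
    obtain ⟨w, hw⟩ := hx
    refine ⟨w.reverse, ?_⟩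
    rw [← hw]
    clear hw
    induction w with
    | nil => simp
    | cons a l ih =>
      have ha : (ρ a)⁻¹ = ρ a := inv_eq_of_mul_eq_one_left (hsq a)
      rw [List.reverse_cons, List.map_append, List.prod_append, ih]
      simp [ha]

end STRaux

open STRaux in
theorem t_STR : S_STR := by
  classical
  intro d P _ rk _ hP f C ρ hρ hfa F0 hF0 hr0 c p hp
  have hG : PolyGroup d rk C (exG ρ) := FOI.gens d P rk hP C ρ hρ
  let _ := GE1.act hG.rank
  have hsm : ∀ (γ : P ≃o P) (x : {v : P // rk v = 0}), (γ • x).1 = γ x.1 := fun _ _ => rfl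
  let g : {v : P // rk v = 0} → E d := fun v => f v.1 - c
  have hinj : Function.Injective g := by
    rintro ⟨v, hv⟩ ⟨w, hw⟩ e
    apply Subtype.ext
    have e' : f v = f w := sub_left_injective e
    exact hfa 0 v w (by simpa using hv) (by simpa using hw) e'
  let x0 : {v : P // rk v = 0} := ⟨F0, hr0⟩
  have hsq : ∀ j : Fin d, ρ j * ρ j = 1 := by
    intro j
    have := hG.sq j.val
    rwa [exG_val] at this
  have htr : ∀ x : {v : P // rk v = 0}, ∃ w : List (Fin d), (w.map ρ).prod • x0 = x := by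
    rintro ⟨v, hv⟩
    obtain ⟨D, hD⟩ := Flag.exists_mem v
    obtain ⟨γ, hγ⟩ := hP.regular C D
    obtain ⟨w, hw⟩ := word_of_gpar ρ hsq γ (by
      have := hG.gen
      unfold gpar at this
      rw [this]
      exact Subgroup.mem_top γ)
    refine ⟨w, Subtype.ext ?_⟩
    rw [hsm, hw]
    exact GE1.flag_unique hP D (GE1.smul_mem hγ hF0) hD (by rw [hG.rank, hv]; exact hr0)
  have hpg : ∀ w : List (Fin d), p w = g ((w.map ρ).prod • x0) := by
    intro w
    change p w = f ((w.map ρ).prod F0) - c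
    rw [hp w, add_sub_cancel_left]
  have hone : ∀ γ : P ≃o P, (∀ x : {v : P // rk v = 0}, γ • x = x) → γ = 1 := by
    intro γ hγ
    have h1 : γ ∈ gpar (exG ρ) ∅ := hG.stab ∅ γ fun x _ i hi _ =>
      GE1.fix_below hG hfa γ x (fun v hv _ => congrArg Subtype.val (hγ ⟨v, hv⟩)) i x hi le_rfl
    rw [gpar, Set.image_empty, Subgroup.closure_empty, Subgroup.mem_bot] at h1
    exact h1
  let e : {v : P // rk v = 0} ≃ {x : E d // x ∈ Set.range g} := Equiv.ofInjective g hinj
  have he : ∀ v, ((e v : {x : E d // x ∈ Set.range g}) : E d) = g v := fun _ => rfl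
  let Φ : (P ≃o P) →* Equiv.Perm (E d) :=
    (Equiv.Perm.extendDomainHom e).comp (MulAction.toPermHom (P ≃o P) {v : P // rk v = 0})
  have hΦ1 : ∀ (γ : P ≃o P) (v : {v : P // rk v = 0}), Φ γ (g v) = g (γ • v) := by
    intro γ v
    change (MulAction.toPerm γ : Equiv.Perm {v : P // rk v = 0}).extendDomain e
      ((e v : {x : E d // x ∈ Set.range g}) : E d) = _
    rw [Equiv.Perm.extendDomain_apply_image]
    rfl
  have hΦ2 : ∀ (γ : P ≃o P) (x : E d), x ∉ Set.range g → Φ γ x = x := by
    intro γ x hx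
    change (MulAction.toPerm γ : Equiv.Perm {v : P // rk v = 0}).extendDomain e x = x
    exact Equiv.Perm.extendDomain_apply_not_subtype _ _ hx
  have hΦ3 : Function.Injective Φ := by
    rw [injective_iff_map_eq_one]
    intro γ hγ
    apply hone
    intro v
    apply hinj
    rw [← hΦ1, hγ]
    rfl
  have hrange : Set.range g ⊆ Set.range p := by
    rintro _ ⟨v, rfl⟩
    obtain ⟨w, rfl⟩ := htr v
    exact ⟨w, hpg w⟩
  refine ⟨⟨fun j => Φ (ρ j), ?_, ?_⟩, ?_, ?_, ?_⟩
  · intro i
    rw [← map_mul, hsq, map_one]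
  · intro i j hij
    rw [← map_mul, ← map_mul]
    have := hG.comm i.val j.val hij
    rw [exG_val, exG_val] at this
    rw [this]
  · intro j w
    change Φ (ρ j) (p w) = p (j :: w)
    rw [hpg, hpg, hΦ1, List.map_cons, List.prod_cons, mul_smul]
  · intro j x hx
    exact hΦ2 _ _ fun h => hx (hrange h)
  · intro w w'
    have hm : ∀ u : List (Fin d), (u.map fun j => Φ (ρ j)).prod = Φ ((u.map ρ).prod) := by
      intro u
      rw [map_list_prod, List.map_map]
      rfl
    change (w.map fun j => Φ (ρ j)).prod = (w'.map fun j => Φ (ρ j)).prod ↔ _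
    rw [hm, hm]
    exact hΦ3.eq_iff

end

end FOX
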