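import Pool.Agent.FOX.ADM
import Pool.Agent.FOX.BCK
import Pool.Agent.FOX.BRD
import Pool.Agent.FOX.CHN
import Pool.Agent.FOX.CNT
import Pool.Agent.FOX.CPG
import Pool.Agent.FOX.KER
import Pool.Agent.FOX.MAT
import Pool.Agent.FOX.MBF
import Pool.Agent.FOX.MBI
import Pool.Agent.FOX.MBR
import Pool.Agent.FOX.PFX
import Pool.Agent.FOX.REG
import Pool.Agent.FOX.SEP
import Pool.Agent.FOX.STR
import Pool.Agent.FOL.UFinal

/-!
# The explicit form, from the modules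
-/

namespace FOX

open Lib_helper64.FO FO2 FOK FOI
open FOL (bd)
open scoped RealInnerProductSpace

noncomputable section

theorem f_MBF : S_MBF := t_MBF t_QRS t_QRX t_QRC t_QCT t_SEP t_KER t_CNT t_CHN t_BRD
theorem f_MBI : S_MBI := t_MBI FOI.L.f_CTI t_SEP t_KER t_CNT t_CHN t_BRD
theorem f_MBR : S_MBR := t_MBR FOI.L.f_CTR t_SEP t_KER t_CNT t_CHN t_BRD
theorem f_BCK : S_BCK := t_BCK (t_COB t_COA) t_XF t_REG t_CPG

theorem wa_rho' {d : ℕ} {P : Type} [PartialOrder P] (ρ : Fin d → (P ≃o P)) (w : List (Fin d))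
    (x : P) : wa (fun j => ρ j) w x = (w.map ρ).prod x := by
  induction w with
  | nil => rfl
  | cons j w ih =>
    rw [List.map_cons, List.prod_cons]
    change ρ j (wa (fun j => ρ j) w x) = ρ j ((w.map ρ).prod x)
    rw [ih]

theorem range_eq {d : ℕ} {P : Type} [PartialOrder P] {rk : P → ℤ} {f : P → E d}
    {p : List (Fin d) → E d} {c : E d} (h1 : ∀ v, rk v = 0 → ∃ w : List (Fin d), f v = c + p w)
    (h2 : ∀ w : List (Fin d), ∃ v, rk v = 0 ∧ f v = c + p w) :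
    f '' {v | rk v = 0} = (fun x => c + x) '' Set.range p := by
  ext x
  constructor
  · rintro ⟨v, hv, rfl⟩
    obtain ⟨w, hw⟩ := h1 v hv
    exact ⟨p w, ⟨w, rfl⟩, hw.symm⟩
  · rintro ⟨_, ⟨w, rfl⟩, rfl⟩
    obtain ⟨v, hv, hw⟩ := h2 w
    exact ⟨v, hv, hw⟩

theorem discr_iff {d : ℕ} (c : E d) (s : Set (E d)) :
    DiscreteTopology ((fun x => c + x) '' s) ↔ DiscreteTopology s := by
  have e : s ≃ₜ ((fun x => c + x) '' s) := (Homeomorph.addLeft c).image s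
  constructor
  · intro h
    exact e.symm.discreteTopology
  · intro h
    exact e.discreteTopology

theorem bound {k d : ℕ} (i : ℕ) (hi : i ≤ 3) {j : Fin d} (h : bd k ≤ j.val + 20) :
    Nat.log 2 k + i ≤ j.val := by
  have h1 : 16 ≤ (Nat.log 2 k + 4) ^ 2 := by nlinarith [Nat.zero_le (Nat.log 2 k)]
  have h2 : Nat.log 2 k + 4 ≤ (Nat.log 2 k + 4) ^ 2 := by nlinarith [Nat.zero_le (Nat.log 2 k)]
  have h3 : bd k = k + 4 * (Nat.log 2 k + 4) ^ 2 := rfl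
  omega

theorem discr_of {k d : ℕ} (hd3 : 3 ≤ d) {p : List (Fin d) → E d} {S : SGen d (E d)}
    (hp : PtF k p ∨ PtI k p ∨ PtR k p) (hA : Adm S p) {P : Type} [PartialOrder P] {rk : P → ℤ}
    {f : P → E d} (hM : Match rk f S (p []) (fun x => x)) :
    Discr rk f ↔ DiscreteTopology (Set.range p) := by
  obtain ⟨hP, -, C, ρ, F0, c, -, -, hr0, hw, hv⟩ := f_BCK d S p (by omega) hA
    (t_PFX k d p hd3 hp) P rk f hM
  obtain ⟨ρ', hρ'⟩ := poly d P rk hP C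
  rw [← discr_iff c, ← range_eq hv fun w => ⟨(w.map ρ).prod F0, ?_, hw w⟩]
  · rfl
  · rw [hρ'.rank]
    exact hr0

theorem all : ExpStatement := by
  intro k d hk hd
  have hd3 : 3 ≤ d := by
    have h2 : Nat.log 2 k + 4 ≤ (Nat.log 2 k + 4) ^ 2 := by
      nlinarith [Nat.zero_le (Nat.log 2 k)]
    have h3 : bd k = k + 4 * (Nat.log 2 k + 4) ^ 2 := rfl
    omega
  have hd1 : 1 ≤ d := by omega
  obtain ⟨H1, H2, H3⟩ := FOI.L.allThm k d hk hd
  refine ⟨fun P _ rk f => ⟨?_, ?_⟩, H2, H3⟩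
  · rintro ⟨hP, hDi, hO⟩
    obtain ⟨b, -, -⟩ := hP.bot
    obtain ⟨C, -⟩ := Flag.exists_mem b
    obtain ⟨ρ', hρ'⟩ := poly d P rk hP C
    have hρ : IsGens rk C (fun j : Fin d => ρ' j) := by
      intro j
      refine ⟨fun h => hρ'.ne_one j j.2 (hρ'.free _ h), fun x hx hr => hρ'.moves j x hx hr⟩
    generalize (fun j : Fin d => ρ' j) = ρ at hρ
    obtain ⟨-, hF, hK⟩ := (H1 P rk hP f C ρ hρ).1 ⟨hDi, hO⟩
    have key : ∃ F0 ∈ C, rk F0 = 0 ∧ ∃ (c : E d) (p : List (Fin d) → E d),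
        (PtF k p ∨ PtI k p ∨ PtR k p) ∧
        ∀ w : List (Fin d), f ((w.map ρ).prod F0) = c + p w := by
      rcases hK with hK | hK | hK
      · obtain ⟨F0, h1, h2, c, p, h3, h4⟩ := f_MBF k d hk hd P rk hP f C ρ hρ hF hK
        exact ⟨F0, h1, h2, c, p, Or.inl h3, h4⟩
      · obtain ⟨F0, h1, h2, c, p, h3, h4⟩ := f_MBI k d hk hd P rk hP f C ρ hρ hF hK
        exact ⟨F0, h1, h2, c, p, Or.inr (Or.inl h3), h4⟩
      · obtain ⟨F0, h1, h2, c, p, h3, h4⟩ := f_MBR k d hk hd P rk hP f C ρ hρ hF hK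
        exact ⟨F0, h1, h2, c, p, Or.inr (Or.inr h3), h4⟩
    obtain ⟨F0, hF0, hr0, c, p, hp, hw⟩ := key
    obtain ⟨S, hS1, hS2, hS3⟩ := t_STR d P rk hd1 hP f C ρ hρ hF F0 hF0 hr0 c p hw
    have hA := t_ADM d P rk hd1 hP f C ρ hρ hF F0 hF0 hr0 c p hw S hS1 hS2 hS3
    have hM := t_MAT d P rk hd1 hP f C ρ hρ F0 hF0 hr0 c p hw S hS1 hS3
    exact ⟨p, S, hp, (discr_of hd3 hp hA hM).1 hDi, hA, hM⟩
  · rintro ⟨p, S, hp, hD, hA, hM⟩
    obtain ⟨hP, hF, C, ρ, F0, c, hρ, hF0, hr0, hw, -⟩ := f_BCK d S p hd1 hA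
      (t_PFX k d p hd3 hp) P rk f hM
    refine ⟨hP, (H1 P rk hP f C ρ hρ).2 ⟨(discr_of hd3 hp hA hM).2 hD, hF, ?_⟩⟩
    rcases hp with hp | hp | hp
    · obtain ⟨y, g, A, M, hA', hπ, hL, hne, hi, hp⟩ := hp
      refine Or.inl ⟨F0, hF0, hr0, c, y, g, A, M, hA', fun j hj => hπ j (bound 1 (by omega) hj),
        hL, hne, hi, fun w => ?_⟩
      rw [wa_rho', hw w, hp w]
    · obtain ⟨y, l, s0, ε, g, A, M, hA', hπ, hε, hL, hl, hi, hp⟩ := hp
      refine Or.inr (Or.inl ⟨F0, hF0, hr0, c, y, l, s0, ε, g, A, M, hA',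
        fun j hj => hπ j (bound 2 (by omega) hj), hε, hL, hl, hi, fun w => ?_⟩)
      rw [wa_rho', hw w, hp w, add_assoc]
    · obtain ⟨e0, y, l, b, s1, g, A, M, hπ, he, hL, hb, hl, hi, hp⟩ := hp
      refine Or.inr (Or.inr ⟨F0, hF0, hr0, c, e0, y, l, b, s1, g, A, M,
        fun j hj => hπ j (bound 3 (by omega) hj), he, hL, hb, hl, hi, fun w => ?_⟩)
      rw [wa_rho', hw w, hp w, add_assoc]

end

end FOX
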