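import Pool.Agent.FOL.UDefs

/-!
# The explicit form: all k-orbit realizations of regular d-polytopes, constructed

The points `p w` (for words `w` in `0, …, d - 1`) of the three kinds, permutations `σ j` of `E d` with
`σ j (p w) = p (j :: w)`, and the polytope as the poset of cosets of `σ 0, …, σ (d - 1)`.
-/

namespace FOX

open Lib_helper64.FO FO2 FOI
open FOL (bd)
open scoped RealInnerProductSpace

noncomputable section

/-- The points `r (π_w a0) g_w y` of the finite kind. -/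
def PtF {d : ℕ} (k : ℕ) (p : List (Fin d) → E d) : Prop :=
  ∃ (y : E d) (g : ℕ → (E d ≃ₗᵢ[ℝ] E d)) (A : Type) (M : Datum d A),
    Finite A ∧ (∀ j : Fin d, Nat.log 2 k + 1 ≤ j.val → M.π j = 1) ∧
    LinModel d 1 ⊤ y g ∧ (∀ a, M.r a ≠ 0) ∧ M.HF.relIndex M.C = k ∧
    ∀ w : List (Fin d), p w = M.r (wa (fun j => M.π j) w M.a0) • wa (fun j => g j) w y

/-- The points `β_w(0) + r (π_w a0) g_w y` of the first infinite kind; `β j = s j g j`, about the
point `l y` with `l ≠ 0` for `j = 0`. -/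
def PtI {d : ℕ} (k : ℕ) (p : List (Fin d) → E d) : Prop :=
  ∃ (y : E d) (l : ℝ) (s0 : ℤˣ) (ε : ℝ) (g : ℕ → (E d ≃ₗᵢ[ℝ] E d)) (A : Type) (M : Datum d A),
    Finite A ∧ (∀ j : Fin d, Nat.log 2 k + 2 ≤ j.val → M.π j = 1) ∧
    (ε = 1 ∨ ε = -1) ∧ LinModel d ε ⊤ y g ∧ l ≠ 0 ∧ M.HI.relIndex (M.CI s0) = k ∧
    ∀ w : List (Fin d), p w =
      wa (bI s0 g (l • y)) w 0 + M.r (wa (fun j => M.π j) w M.a0) • wa (fun j => g j) w y

/-- The points `β_w(0) + r (π_w a0) e0` of the second infinite kind; the model is in the orthogonal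
complement of the unit vector `e0`. -/
def PtR {d : ℕ} (k : ℕ) (p : List (Fin d) → E d) : Prop :=
  ∃ (e0 y : E d) (l : ℝ) (b : Bool) (s1 : ℤˣ) (g : ℕ → (E d ≃ₗᵢ[ℝ] E d)) (A : Type)
    (M : Datum d A),
    (∀ j : Fin d, Nat.log 2 k + 3 ≤ j.val → M.π j = 1) ∧
    ‖e0‖ = 1 ∧ LinModel (d - 1) 1 (ℝ ∙ e0)ᗮ y g ∧ (b = true → CroM (d - 1) 1 (ℝ ∙ e0)ᗮ y g) ∧
    l ≠ 0 ∧ M.HR.relIndex M.C = k ∧
    ∀ w : List (Fin d), p w =
      wa (bR b s1 g y (l • y)) w 0 + M.r (wa (fun j => M.π j) w M.a0) • e0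

/-- The permutations `σ j` act on the points by `p w ↦ p (j :: w)`, fix all other points of the
space, are different from `1`, have the intersection property, and the two conditions for
faithfulness hold: the stabilizer of the base point is generated by the `σ j`, `j ≥ 1`, and if `γ`
and `σ (m - 1) γ σ (m - 1)` are in the group generated by the `σ j`, `j ≥ m`, then `γ` is in the
group generated by the `σ j`, `j > m`. -/
structure Adm {d : ℕ} (S : SGen d (E d)) (p : List (Fin d) → E d) : Prop where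
  act : ∀ (j : Fin d) (w : List (Fin d)), S.σ j (p w) = p (j :: w)
  out : ∀ (j : Fin d) (x : E d), x ∉ Set.range p → S.σ j x = x
  ne_one : ∀ j, S.σ j ≠ 1
  inter : ∀ I J : Set (Fin d), S.par I ⊓ S.par J = S.par (I ∩ J)
  stab : ∀ γ ∈ S.par Set.univ, γ (p []) = p [] → γ ∈ S.par {j | j.val ≠ 0}
  edge : ∀ m : Fin d, 1 ≤ m.val → ∀ γ ∈ S.par {j | m ≤ j},
    S.σ (prd m) * γ * S.σ (prd m) ∈ S.par {j | m ≤ j} → γ ∈ S.par {j | m < j}

/-- All `k`-orbit realizations of regular `d`-polytopes, finite or infinite, for `k ≥ 2` and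
`d ≥ k + 4 (⌊log2 k⌋ + 4) ^ 2`, up to isomorphism; and the numbers `k` that occur. -/
def ExpStatement : Prop :=
  ∀ k d : ℕ, 2 ≤ k → bd k ≤ d →
    (∀ (P : Type) [PartialOrder P] (rk : P → ℤ) (f : P → E d),
      (IsRegularPolytope d rk ∧ Discr rk f ∧ IsOrbitRealization rk f k) ↔
        ∃ (p : List (Fin d) → E d) (S : SGen d (E d)), (PtF k p ∨ PtI k p ∨ PtR k p) ∧
          DiscreteTopology (Set.range p) ∧ Adm S p ∧ Match rk f S (p []) (fun x => x)) ∧
    ((∃ (P : Type) (_ : PartialOrder P) (_ : Finite P) (rk : P → ℤ) (f : P → E d),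
      IsRegularPolytope d rk ∧ Discr rk f ∧ IsOrbitRealization rk f k) ↔ Even k) ∧
    (∃ (P : Type) (_ : PartialOrder P) (_ : Infinite P) (rk : P → ℤ) (f : P → E d),
      IsRegularPolytope d rk ∧ Discr rk f ∧ IsOrbitRealization rk f k)

end

end FOX
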