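import Pool.Agent.FOL.UFinal
import Pool.Agent.FOX.REG
import Pool.Agent.FOX.CPG
import Pool.Agent.FOX.BCK
import Pool.Agent.FOX.STR
import Pool.Agent.FOX.ADM
import Pool.Agent.FOX.MAT
import Pool.Agent.FOX.PFX
import Pool.Agent.FOX.SEP
import Pool.Agent.FOX.KER
import Pool.Agent.FOX.CNT
import Pool.Agent.FOX.CHN
import Pool.Agent.FOX.BRD
import Pool.Agent.FOX.MBF
import Pool.Agent.FOX.MBI
import Pool.Agent.FOX.MBR

/-!
# The explicit form of the k-orbit theorem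
-/

namespace FOX

open Lib_helper64.FO FO2 FOK FOI
open FOL (bd)
open scoped RealInnerProductSpace

theorem f_BCK : S_BCK := t_BCK (t_COB t_COA) t_XF t_REG t_CPG

theorem f_MBF : S_MBF := t_MBF t_QRS t_QRX t_QRC t_QCT t_SEP t_KER t_CNT t_CHN t_BRD

theorem f_MBI : S_MBI := t_MBI FOI.L.f_CTI t_SEP t_KER t_CNT t_CHN t_BRD

theorem f_MBR : S_MBR := t_MBR FOI.L.f_CTR t_SEP t_KER t_CNT t_CHN t_BRD

theorem exists_gens {d : ℕ} {P : Type} [PartialOrder P] {rk : P → ℤ}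
    (hP : IsRegularPolytope d rk) : ∃ (C : Flag P) (ρ : Fin d → (P ≃o P)), IsGens rk C ρ := by
  obtain ⟨b, -⟩ := hP.bot
  obtain ⟨C, -⟩ := Flag.exists_mem b
  obtain ⟨ρ, hρ⟩ := FOI.poly d P rk hP C
  refine ⟨C, fun j => ρ j.val, fun j => ⟨fun e => ?_, fun x hx hr => ?_⟩⟩
  · exact hρ.ne_one j.val j.isLt (hρ.free _ e)
  · exact hρ.moves j.val x hx hr

theorem bd_large (k : ℕ) : Nat.log 2 k + 30 ≤ bd k := by
  have h : bd k = k + 4 * (Nat.log 2 k + 4) ^ 2 := rfl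
  rw [h]
  nlinarith [Nat.zero_le k, Nat.zero_le (Nat.log 2 k)]

theorem kindF_of {k d : ℕ} (hd : bd k ≤ d) {p : List (Fin d) → E d} (h : PtF k p) {P : Type}
    [PartialOrder P] {rk : P → ℤ} {f : P → E d} {C : Flag P} {ρ : Fin d → (P ≃o P)} {F0 : P}
    {c : E d} (hF : F0 ∈ C) (hr : rk F0 = 0)
    (hw : ∀ w : List (Fin d), f ((w.map ρ).prod F0) = c + p w) : FOI.L.KindF k rk f C ρ := by
  obtain ⟨y, g, A, M, hA, hπ, hm, hne, hi, hp⟩ := h
  have hb := bd_large k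
  refine ⟨F0, hF, hr, c, y, g, A, M, hA, fun j hj => hπ j (by omega), hm, hne, hi, fun w => ?_⟩
  rw [wa_rho, hw, hp]

theorem kindI_of {k d : ℕ} (hd : bd k ≤ d) {p : List (Fin d) → E d} (h : PtI k p) {P : Type}
    [PartialOrder P] {rk : P → ℤ} {f : P → E d} {C : Flag P} {ρ : Fin d → (P ≃o P)} {F0 : P}
    {c : E d} (hF : F0 ∈ C) (hr : rk F0 = 0)
    (hw : ∀ w : List (Fin d), f ((w.map ρ).prod F0) = c + p w) : FOI.L.KindI k rk f C ρ := by
  obtain ⟨y, l, s0, ε, g, A, M, hA, hπ, hε, hm, hl, hi, hp⟩ := h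
  have hb := bd_large k
  refine ⟨F0, hF, hr, c, y, l, s0, ε, g, A, M, hA, fun j hj => hπ j (by omega), hε, hm, hl, hi,
    fun w => ?_⟩
  rw [wa_rho, hw, hp, add_assoc]

theorem kindR_of {k d : ℕ} (hd : bd k ≤ d) {p : List (Fin d) → E d} (h : PtR k p) {P : Type}
    [PartialOrder P] {rk : P → ℤ} {f : P → E d} {C : Flag P} {ρ : Fin d → (P ≃o P)} {F0 : P}
    {c : E d} (hF : F0 ∈ C) (hr : rk F0 = 0)
    (hw : ∀ w : List (Fin d), f ((w.map ρ).prod F0) = c + p w) : FOI.L.KindR k rk f C ρ := by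
  obtain ⟨e0, y, l, b, s1, g, A, M, hπ, he, hm, hc, hl, hi, hp⟩ := h
  have hb := bd_large k
  refine ⟨F0, hF, hr, c, e0, y, l, b, s1, g, A, M, fun j hj => hπ j (by omega), he, hm, hc, hl,
    hi, fun w => ?_⟩
  rw [wa_rho, hw, hp, add_assoc]

/-- the images of the vertices are the translates of the points `p w` -/
theorem discr_iff {d : ℕ} {P : Type} [PartialOrder P] {rk : P → ℤ} {f : P → E d}
    {p : List (Fin d) → E d} {c : E d} (h : f '' {v | rk v = 0} = (fun x => c + x) '' Set.range p) :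
    Discr rk f ↔ DiscreteTopology (Set.range p) := by
  have e1 : Discr rk f ↔ DiscreteTopology (f '' {v | rk v = 0}) := Iff.rfl
  rw [e1, h]
  have e2 : (fun x => c + x) '' Set.range p = (Homeomorph.addLeft c) '' Set.range p := rfl
  rw [e2]
  exact ((Homeomorph.addLeft c).image (Set.range p)).symm.discreteTopology_iff

theorem expThm : ExpStatement := by
  intro k d hk hd
  obtain ⟨h1, h2, h3⟩ := FOI.L.allThm k d hk hd
  have hb := bd_large k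
  refine ⟨?_, h2, h3⟩
  intro P _ rk f
  constructor
  · rintro ⟨hP, hD, hO⟩
    obtain ⟨C, ρ, hρ⟩ := exists_gens hP
    obtain ⟨-, hF, hK⟩ := (h1 P rk hP f C ρ hρ).1 ⟨hD, hO⟩
    obtain ⟨F0, hF0, hr, c, p, hPt, hw⟩ : ∃ F0 ∈ C, rk F0 = 0 ∧
        ∃ (c : E d) (p : List (Fin d) → E d), (PtF k p ∨ PtI k p ∨ PtR k p) ∧
        ∀ w : List (Fin d), f ((w.map ρ).prod F0) = c + p w := by
      rcases hK with hK | hK | hK
      · obtain ⟨F0, hF0, hr, c, p, hPt, hw⟩ := f_MBF k d hk hd P rk hP f C ρ hρ hF hK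
        exact ⟨F0, hF0, hr, c, p, Or.inl hPt, hw⟩
      · obtain ⟨F0, hF0, hr, c, p, hPt, hw⟩ := f_MBI k d hk hd P rk hP f C ρ hρ hF hK
        exact ⟨F0, hF0, hr, c, p, Or.inr (Or.inl hPt), hw⟩
      · obtain ⟨F0, hF0, hr, c, p, hPt, hw⟩ := f_MBR k d hk hd P rk hP f C ρ hρ hF hK
        exact ⟨F0, hF0, hr, c, p, Or.inr (Or.inr hPt), hw⟩
    have hd1 : 1 ≤ d := by omega
    obtain ⟨S, s1, s2, s3⟩ := t_STR d P rk hd1 hP f C ρ hρ hF F0 hF0 hr c p hw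
    have hA := t_ADM d P rk hd1 hP f C ρ hρ hF F0 hF0 hr c p hw S s1 s2 s3
    have hM := t_MAT d P rk hd1 hP f C ρ hρ F0 hF0 hr c p hw S s1 s3
    refine ⟨p, S, hPt, ?_, hA, hM⟩
    obtain ⟨-, -, C', ρ', F0', c', -, -, hr', hw', hv'⟩ := f_BCK d S p hd1 hA
      (t_PFX k d p (by omega) hPt) P rk f hM
    refine (discr_iff (c := c') ?_).1 hD
    ext x
    constructor
    · rintro ⟨v, hv, rfl⟩
      obtain ⟨w, hw⟩ := hv' v hv
      exact ⟨p w, ⟨w, rfl⟩, hw.symm⟩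
    · rintro ⟨-, ⟨w, rfl⟩, rfl⟩
      refine ⟨(w.map ρ').prod F0', ?_, hw' w⟩
      change rk _ = 0
      rw [(FOI.flag d P rk hP).2.2.1, hr']
  · rintro ⟨p, S, hPt, hdis, hA, hM⟩
    obtain ⟨hP, hF, C, ρ, F0, c, hρ, hF0, hr, hw, hv⟩ := f_BCK d S p (by omega) hA
      (t_PFX k d p (by omega) hPt) P rk f hM
    have hD : Discr rk f := by
      refine (discr_iff (c := c) ?_).2 hdis
      ext x
      constructor
      · rintro ⟨v, hv1, rfl⟩
        obtain ⟨w, hw⟩ := hv v hv1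
        exact ⟨p w, ⟨w, rfl⟩, hw.symm⟩
      · rintro ⟨-, ⟨w, rfl⟩, rfl⟩
        refine ⟨(w.map ρ).prod F0, ?_, hw w⟩
        change rk _ = 0
        rw [(FOI.flag d P rk hP).2.2.1, hr]
    have hK : FOI.L.KindF k rk f C ρ ∨ FOI.L.KindI k rk f C ρ ∨ FOI.L.KindR k rk f C ρ := by
      rcases hPt with h | h | h
      · exact Or.inl (kindF_of hd h hF0 hr hw)
      · exact Or.inr (Or.inl (kindI_of hd h hF0 hr hw))
      · exact Or.inr (Or.inr (kindR_of hd h hF0 hr hw))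
    exact ⟨hP, (h1 P rk hP f C ρ hρ).2 ⟨hD, hF, hK⟩⟩

end FOX
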