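import Pool.Agent.FOX.Defs
import Pool.Agent.FOI.EStmts

/-!
# Statements of the modules for the explicit form

Paper: `Pool/Agent/FOX/PAPER.md`.
-/

namespace FOX

open Lib_helper64.FO FO2 FOK FOI
open FOL (bd)
open scoped RealInnerProductSpace

noncomputable section

/-! ## A. The polytope is a coset poset -/

/-- A1: transport of `IsRegularPolytope` along an isomorphism of posets that preserves the ranks. -/
def S_REG : Prop :=
  ∀ (d : ℕ) (P Q : Type) [PartialOrder P] [PartialOrder Q] (rk : P → ℤ) (rk' : Q → ℤ)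
    (φ : P ≃o Q), (∀ x, rk' (φ x) = rk x) → IsRegularPolytope d rk' → IsRegularPolytope d rk

/-- A2: base flag, generators and words in the coset poset: the word `ρ_w` maps the base vertex to
the coset of `σ_w` (see `FOI/XG.lean`, `FOK/QEG.lean`; `ρ j` is the left multiplication by `σ j`,
`C` the flag of the cosets containing `1`). -/
def S_CPG : Prop :=
  ∀ (d : ℕ) (Y : Type) (S : SGen d Y), 1 ≤ d → StrC S →
    ∃ (C : Flag (CPos S)) (ρ : Fin d → (CPos S ≃o CPos S)) (F0 : CPos S),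
      IsGens rkC C ρ ∧ F0 ∈ C ∧ rkC F0 = 0 ∧
      ∀ w : List (Fin d), ∃ K : CFace S, (w.map ρ).prod F0 = some (some K) ∧
        (w.map S.σ).prod ∈ K.coset

/-- A3: from a match to the word formula. `P` is a regular polytope by `S_COB`, `S_REG`; faithful by
`S_XF` for `F = id`; flag and generators: those of `S_CPG` transported by the isomorphism. -/
def S_BCK : Prop :=
  ∀ (d : ℕ) (S : SGen d (E d)) (p : List (Fin d) → E d), 1 ≤ d → Adm S p →
    (∀ j : Fin d, j.val ≠ 0 → p [j] = p []) →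
    ∀ (P : Type) [PartialOrder P] (rk : P → ℤ) (f : P → E d), Match rk f S (p []) (fun x => x) →
      IsRegularPolytope d rk ∧ Faithful rk f ∧
      ∃ (C : Flag P) (ρ : Fin d → (P ≃o P)) (F0 : P) (c : E d),
        IsGens rk C ρ ∧ F0 ∈ C ∧ rk F0 = 0 ∧
        (∀ w : List (Fin d), f ((w.map ρ).prod F0) = c + p w) ∧
        ∀ v, rk v = 0 → ∃ w : List (Fin d), f v = c + p w

def M_BCK : Prop := S_COB → S_XF → S_REG → S_CPG → S_BCK

/-- A4: the permutations of the points of a faithful realization of a regular polytope with word formula.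
`σ j` is `f v - c ↦ f (ρ j v) - c` on the images of the vertices `v` and the identity elsewhere; `f` is
injective on the vertices, every vertex is `ρ_w F0`, and an automorphism that fixes all vertices is `1`
(`Faithful`, induction on the rank; or the field `fix` of `AGeo`, see `FOI/AOf.lean`). -/
def S_STR : Prop :=
  ∀ (d : ℕ) (P : Type) [PartialOrder P] (rk : P → ℤ), 1 ≤ d → IsRegularPolytope d rk →
    ∀ (f : P → E d) (C : Flag P) (ρ : Fin d → (P ≃o P)), IsGens rk C ρ → Faithful rk f →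
    ∀ F0 ∈ C, rk F0 = 0 → ∀ (c : E d) (p : List (Fin d) → E d),
      (∀ w : List (Fin d), f ((w.map ρ).prod F0) = c + p w) →
      ∃ S : SGen d (E d), (∀ (j : Fin d) (w : List (Fin d)), S.σ j (p w) = p (j :: w)) ∧
        (∀ (j : Fin d) (x : E d), x ∉ Set.range p → S.σ j x = x) ∧
        ∀ w w' : List (Fin d), (w.map S.σ).prod = (w'.map S.σ).prod ↔
          (w.map ρ).prod = (w'.map ρ).prod

/-- A5: the conditions `Adm`. All products of the `σ j` with `j ∈ I` are words in letters of `I`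
(`σ j` are involutions), the same for the `ρ j`; intersection property and stabilizer: `FOI.gens`
(`PolyGroup`); `edge`: if `γ` and `ρ (m - 1) γ ρ (m - 1)` are in `⟨ρ j, j ≥ m⟩` then `γ` fixes all the
`(m - 1)`-faces of the base `m`-face, so `γ F_m = F_m` by `Faithful` (equal images; for `m = d` nothing is to be
shown as `{j | m < j}`, `m : Fin d`); see `FOI/AGeo.lean`, `L2`. -/
def S_ADM : Prop :=
  ∀ (d : ℕ) (P : Type) [PartialOrder P] (rk : P → ℤ), 1 ≤ d → IsRegularPolytope d rk →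
    ∀ (f : P → E d) (C : Flag P) (ρ : Fin d → (P ≃o P)), IsGens rk C ρ → Faithful rk f →
    ∀ F0 ∈ C, rk F0 = 0 → ∀ (c : E d) (p : List (Fin d) → E d),
      (∀ w : List (Fin d), f ((w.map ρ).prod F0) = c + p w) →
      ∀ S : SGen d (E d), (∀ (j : Fin d) (w : List (Fin d)), S.σ j (p w) = p (j :: w)) →
        (∀ (j : Fin d) (x : E d), x ∉ Set.range p → S.σ j x = x) →
        (∀ w w' : List (Fin d), (w.map S.σ).prod = (w'.map S.σ).prod ↔
          (w.map ρ).prod = (w'.map ρ).prod) → Adm S p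

/-- A6: the match. The face `x` of rank `i`, `0 ≤ i < d`, goes to the coset of the `σ_w` with
`ρ_w F_i = x`, `F_i` the face of rank `i` of `C`. See `FO2/GE2.lean` (for finite polytopes). -/
def S_MAT : Prop :=
  ∀ (d : ℕ) (P : Type) [PartialOrder P] (rk : P → ℤ), 1 ≤ d → IsRegularPolytope d rk →
    ∀ (f : P → E d) (C : Flag P) (ρ : Fin d → (P ≃o P)), IsGens rk C ρ →
    ∀ F0 ∈ C, rk F0 = 0 → ∀ (c : E d) (p : List (Fin d) → E d),
      (∀ w : List (Fin d), f ((w.map ρ).prod F0) = c + p w) →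
      ∀ S : SGen d (E d), (∀ (j : Fin d) (w : List (Fin d)), S.σ j (p w) = p (j :: w)) →
        (∀ w w' : List (Fin d), (w.map S.σ).prod = (w'.map S.σ).prod ↔
          (w.map ρ).prod = (w'.map ρ).prod) → Match rk f S (p []) (fun x => x)

/-- A7: the base point is fixed by the generators `j ≥ 1`, in all kinds. -/
def S_PFX : Prop :=
  ∀ (k d : ℕ) (p : List (Fin d) → E d), 3 ≤ d → (PtF k p ∨ PtI k p ∨ PtR k p) →
    ∀ j : Fin d, j.val ≠ 0 → p [j] = p []

/-! ## B. The number of nontrivial permutations of the datum -/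

/-- the points of `A` are separated by the values of `r` on their translates -/
def Sep {d : ℕ} {A : Type} (M : Datum d A) : Prop :=
  ∀ a b : A, (∀ w : List (Fin d), M.r ((w.map M.π).prod a) = M.r ((w.map M.π).prod b)) → a = b

/-- B1: the quotient of `A` by the relation of `Sep`. -/
def S_SEP : Prop :=
  ∀ (d : ℕ) (A : Type) (M : Datum d A), ∃ (A' : Type) (M' : Datum d A'), Sep M' ∧
    (Finite A → Finite A') ∧ (∀ j, M.π j = 1 → M'.π j = 1) ∧ ((∀ a, M.r a ≠ 0) → ∀ a, M'.r a ≠ 0) ∧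
    ∀ w : List (Fin d), M'.r ((w.map M'.π).prod M'.a0) = M.r ((w.map M.π).prod M.a0)

/-- B2: Let the vertices be `ρ_w x0` with images `Φ (ω_w) (r (π_w a0))`, `ω` in a group `W`. If
`(ω j ω (j + 1))^3 = 1` for `j0 ≤ j < l` and `π j = 1` for `j ≥ l`, then a product `c` of the `π j`,
`j ≥ j0`, with `r ∘ c = r` is `1`. Proof: the `c = π_u` with `ω_u = 1` form a normal subgroup `K` of
the group of all `π_w`; by the relation `π j ^ 3 ∈ K` if `π (j + 1) ∈ K`, so `π j ∈ K` for all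
`j ≥ j0`. For `c = π_u ∈ K`, `r ∘ c = r`: `f (ρ_u ρ_v x0) = f (ρ_v x0)` for all words `v`, so `ρ_u` acts
trivially on `X`; so `f (ρ_w ρ_u ρ_v x0) = f (ρ_w ρ_v x0)`, `r (π_w c a) = r (π_w a)` for all `w`, `a`. -/
def S_KER : Prop :=
  ∀ (d : ℕ) (Γ : Type) [Group Γ] (X : Type) [MulAction Γ X] (ρ : Fin d → Γ) (x0 : X) (f : X → E d)
    (W : Type) [Group W] (ω : Fin d → W) (Φ : W → ℝ → E d) (A : Type) (M : Datum d A) (j0 l : ℕ),
    Function.Injective f → (∀ x : X, ∃ w : List (Fin d), (w.map ρ).prod • x0 = x) →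
    (∀ x, Function.Injective (Φ x)) → Sep M →
    (∀ w : List (Fin d), f ((w.map ρ).prod • x0) =
      Φ (w.map ω).prod (M.r ((w.map M.π).prod M.a0))) →
    (∀ j, ω j * ω j = 1) →
    (∀ i j : Fin d, j0 ≤ i.val → i.val < l → j.val = i.val + 1 → (ω i * ω j) ^ 3 = 1) →
    l < d → (∀ j : Fin d, l ≤ j.val → M.π j = 1) →
    ∀ c ∈ Subgroup.closure (M.π '' {j | j0 ≤ j.val}), (∀ a, M.r (c a) = M.r a) → c = 1

/-- B3: `|D| ≤ |D ∩ H| [G : H]`. -/
def S_CNT : Prop :=
  ∀ (Q : Type) [Group Q] (D G H : Subgroup Q) (k e : ℕ), D ≤ G → H.relIndex G = k → k ≠ 0 →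
    Finite (D ⊓ H : Subgroup Q) → Nat.card (D ⊓ H : Subgroup Q) ≤ e →
    Finite D ∧ Nat.card D ≤ e * k

/-- B4: `C_i := ⟨π j, j ≥ i⟩`. If `π j ≠ 1`, `j ≥ i ≥ 1`, then `C_i ≠ C_(i+1)`: otherwise `C_(i+1)` is
normal in the whole group (it commutes with `π j`, `j < i`) and fixes `a0`, so it is trivial. So
`|C_i| ≥ 2 ^ (j - i + 1)`. -/
def S_CHN : Prop :=
  ∀ (d : ℕ) (A : Type) (M : Datum d A) (i : ℕ), 1 ≤ i →
    Finite (Subgroup.closure (M.π '' {j | i ≤ j.val})) → ∀ j : Fin d, i ≤ j.val → M.π j ≠ 1 →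
    2 ^ (j.val - i + 1) ≤ Nat.card (Subgroup.closure (M.π '' {j | i ≤ j.val}))

/-- B5: the relations of neighbours in the models. -/
def S_BRD : Prop :=
  ∀ (D n : ℕ) (ε : ℝ) (I : Submodule ℝ (E D)) (y : E D) (g : ℕ → (E D ≃ₗᵢ[ℝ] E D)),
    LinModel n ε I y g → (ε = 1 ∨ ε = -1) →
    (∀ j, j < n → ∀ v ∈ I, g j v ∈ I ∧ g j (g j v) = v) ∧
    ∀ j, 1 ≤ j → (ε = 1 ∨ 2 ≤ j) → j + 2 < n → ∀ v ∈ I,
      g j (g (j + 1) (g j (g (j + 1) (g j (g (j + 1) v))))) = v

/-- B6: the finite kind. `S_SEP`; `S_KER` for `W = E d ≃ₗᵢ E d`, `Φ g t = c + t g y`, `j0 = 1`; `M'.HF` meets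
`C_1` trivially (an element of `C_1` fixes `a0`, and `r a0 ≠ 0`); `S_CNT`, `S_CHN`. The index of the new datum is
`k` by the first theorem (`index_of_kindF` of FOL/UF.lean computes the index of `symGroup` for every
datum). -/
def S_MBF : Prop :=
  ∀ (k d : ℕ), 2 ≤ k → bd k ≤ d → ∀ (P : Type) [PartialOrder P] (rk : P → ℤ),
    IsRegularPolytope d rk → ∀ (f : P → E d) (C : Flag P) (ρ : Fin d → (P ≃o P)),
    IsGens rk C ρ → Faithful rk f → FOI.L.KindF k rk f C ρ →
    ∃ F0 ∈ C, rk F0 = 0 ∧ ∃ (c : E d) (p : List (Fin d) → E d), PtF k p ∧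
      ∀ w : List (Fin d), f ((w.map ρ).prod F0) = c + p w

def M_MBF : Prop := StmtQRS → StmtQRX → StmtQRC → StmtQCT → S_SEP → S_KER → S_CNT → S_CHN → S_BRD →
  S_MBF

/-- B7: the first infinite kind. `S_KER` for `W = Perm (E d) × (E d ≃ₗᵢ E d)`, `ω j = (β j, g j)`,
`Φ (β, g) t = c + β 0 + t g y`, `j0 = 2`; `HI` meets the group of the `(c, 1)`, `c ∈ C_2`, trivially. -/
def S_MBI : Prop :=
  ∀ (k d : ℕ), 2 ≤ k → bd k ≤ d → ∀ (P : Type) [PartialOrder P] (rk : P → ℤ),
    IsRegularPolytope d rk → ∀ (f : P → E d) (C : Flag P) (ρ : Fin d → (P ≃o P)),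
    IsGens rk C ρ → Faithful rk f → FOI.L.KindI k rk f C ρ →
    ∃ F0 ∈ C, rk F0 = 0 ∧ ∃ (c : E d) (p : List (Fin d) → E d), PtI k p ∧
      ∀ w : List (Fin d), f ((w.map ρ).prod F0) = c + p w

def M_MBI : Prop := S_CTI → S_SEP → S_KER → S_CNT → S_CHN → S_BRD → S_MBI

/-- B8: the second infinite kind. `S_KER` for `W` the permutations of the subspace `e0ᗮ`, `ω j = β j`,
`Φ β t = c + β 0 + t e0`, `j0 = 2`; `HR` meets `C_2` in at most two elements: `r ∘ c = s r + t` and
`c a0 = a0`; if `s = 1` then `t = 0` and `c = 1`; the product of two elements with `s = -1` is `1`, and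
each is of order 2 (its square has `s = 1`). -/
def S_MBR : Prop :=
  ∀ (k d : ℕ), 2 ≤ k → bd k ≤ d → ∀ (P : Type) [PartialOrder P] (rk : P → ℤ),
    IsRegularPolytope d rk → ∀ (f : P → E d) (C : Flag P) (ρ : Fin d → (P ≃o P)),
    IsGens rk C ρ → Faithful rk f → FOI.L.KindR k rk f C ρ →
    ∃ F0 ∈ C, rk F0 = 0 ∧ ∃ (c : E d) (p : List (Fin d) → E d), PtR k p ∧
      ∀ w : List (Fin d), f ((w.map ρ).prod F0) = c + p w

def M_MBR : Prop := S_CTR → S_SEP → S_KER → S_CNT → S_CHN → S_BRD → S_MBR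

end

end FOX
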